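import Mathlib

set_option autoImplicit false
set_option linter.unusedSectionVars false

/-!
Kernels: functions on finite lists of edges of a bipartite graph, with the operations
derivative, composition, disjoint sum and relabelling.
-/

namespace Pool.Agent.J6H0.Bij

open scoped Classical

noncomputable section

variable {F : Type} [CommRing F]

/-- A kernel between `A` and `B`: a function on lists of edges. -/
abbrev Ker (F A B : Type) := List (A × B) → F

/-- Derivative along an edge. -/
def Dv {A B : Type} (e : A × B) (c : Ker F A B) : Ker F A B := fun L => c (e :: L)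

@[simp] lemma Dv_apply {A B : Type} (e : A × B) (c : Ker F A B) (L : List (A × B)) :
    Dv e c L = c (e :: L) := rfl

/-- The kernel of a bijection: one if all edges of the list are in its graph, zero otherwise. -/
def Kp {A B : Type} (σ : A ≃ B) : Ker F A B
  | [] => 1
  | e :: L => if σ e.1 = e.2 then Kp σ L else 0

@[simp] lemma Kp_nil {A B : Type} (σ : A ≃ B) : (Kp σ : Ker F A B) [] = 1 := rfl

@[simp] lemma Kp_cons {A B : Type} (σ : A ≃ B) (e : A × B) (L : List (A × B)) :
    (Kp σ : Ker F A B) (e :: L) = if σ e.1 = e.2 then Kp σ L else 0 := rfl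

/-- Composition of kernels, evaluated on a list. -/
def comp {A B C : Type} [Fintype B] : List (A × C) → Ker F A B → Ker F B C → F
  | [], c, c' => c [] * c' []
  | e :: L, c, c' => ∑ b : B, comp L (Dv (e.1, b) c) (Dv (b, e.2) c')

/-- Composition of kernels. -/
def cmp {A B C : Type} [Fintype B] (c : Ker F A B) (c' : Ker F B C) : Ker F A C :=
  fun L => comp L c c'

/-- Disjoint sum of kernels, evaluated on a list. -/
def tens {A A' B B' : Type} : List ((A ⊕ A') × (B ⊕ B')) → Ker F A B → Ker F A' B' → F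
  | [], c, c' => c [] * c' []
  | (Sum.inl a, Sum.inl b) :: L, c, c' => tens L (Dv (a, b) c) c'
  | (Sum.inr a, Sum.inr b) :: L, c, c' => tens L c (Dv (a, b) c')
  | (Sum.inl _, Sum.inr _) :: _, _, _ => 0
  | (Sum.inr _, Sum.inl _) :: _, _, _ => 0

/-- Disjoint sum of kernels. -/
def tn {A A' B B' : Type} (c : Ker F A B) (c' : Ker F A' B') : Ker F (A ⊕ A') (B ⊕ B') :=
  fun L => tens L c c'

/-- Relabelling. -/
def rl {A A' B B' : Type} (h : A → A') (g : B → B') (c : Ker F A' B') : Ker F A B :=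
  fun L => c (L.map (Prod.map h g))

/-! ### Basic rules -/

section basic

variable {A A' A'' B B' B'' C C' : Type}

@[simp] lemma comp_nil [Fintype B] (c : Ker F A B) (c' : Ker F B C) :
    comp [] c c' = c [] * c' [] := rfl

lemma comp_cons [Fintype B] (e : A × C) (L : List (A × C)) (c : Ker F A B) (c' : Ker F B C) :
    comp (e :: L) c c' = ∑ b : B, comp L (Dv (e.1, b) c) (Dv (b, e.2) c') := rfl

@[simp] lemma tens_nil (c : Ker F A B) (c' : Ker F A' B') :
    tens [] c c' = c [] * c' [] := rfl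

@[simp] lemma tens_ll (a : A) (b : B) (L : List ((A ⊕ A') × (B ⊕ B')))
    (c : Ker F A B) (c' : Ker F A' B') :
    tens ((Sum.inl a, Sum.inl b) :: L) c c' = tens L (Dv (a, b) c) c' := rfl

@[simp] lemma tens_rr (a : A') (b : B') (L : List ((A ⊕ A') × (B ⊕ B')))
    (c : Ker F A B) (c' : Ker F A' B') :
    tens ((Sum.inr a, Sum.inr b) :: L) c c' = tens L c (Dv (a, b) c') := rfl

@[simp] lemma tens_lr (a : A) (b : B') (L : List ((A ⊕ A') × (B ⊕ B')))
    (c : Ker F A B) (c' : Ker F A' B') :
    tens ((Sum.inl a, Sum.inr b) :: L) c c' = 0 := rfl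

@[simp] lemma tens_rl (a : A') (b : B) (L : List ((A ⊕ A') × (B ⊕ B')))
    (c : Ker F A B) (c' : Ker F A' B') :
    tens ((Sum.inr a, Sum.inl b) :: L) c c' = 0 := rfl

@[simp] lemma rl_nil (h : A → A') (g : B → B') (c : Ker F A' B') : rl h g c [] = c [] := rfl

lemma Dv_rl (h : A → A') (g : B → B') (c : Ker F A' B') (e : A × B) :
    Dv e (rl h g c) = rl h g (Dv (h e.1, g e.2) c) := rfl

lemma rl_rl (h : A → A') (g : B → B') (h' : A' → A'') (g' : B' → B'') (c : Ker F A'' B'') :
    rl h g (rl h' g' c) = rl (h' ∘ h) (g' ∘ g) c := by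
  funext L
  simp [rl, List.map_map]
  rfl

lemma rl_id (c : Ker F A B) : rl id id c = c := by
  funext L
  simp [rl]

/-! ### Linearity -/

lemma Dv_sum {ι : Type} (s : Finset ι) (e : A × B) (b : ι → F) (c : ι → Ker F A B) :
    Dv e (fun L => ∑ x ∈ s, b x * c x L) = fun L => ∑ x ∈ s, b x * Dv e (c x) L := rfl

lemma comp_sum_left [Fintype B] {ι : Type} (s : Finset ι) (b : ι → F) (L : List (A × C))
    (c : ι → Ker F A B) (c' : Ker F B C) :
    comp L (fun L' => ∑ x ∈ s, b x * c x L') c' = ∑ x ∈ s, b x * comp L (c x) c' := by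
  induction L generalizing c c' with
  | nil => simp [Finset.sum_mul, mul_assoc]
  | cons e L ih =>
    simp only [comp_cons, Dv_sum]
    rw [Finset.sum_congr rfl (fun y _ => ih _ _), Finset.sum_comm]
    exact Finset.sum_congr rfl (fun x _ => by rw [Finset.mul_sum])

lemma comp_sum_right [Fintype B] {ι : Type} (s : Finset ι) (b : ι → F) (L : List (A × C))
    (c : Ker F A B) (c' : ι → Ker F B C) :
    comp L c (fun L' => ∑ x ∈ s, b x * c' x L') = ∑ x ∈ s, b x * comp L c (c' x) := by
  induction L generalizing c c' with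
  | nil =>
    simp only [comp_nil, Finset.mul_sum]
    exact Finset.sum_congr rfl (fun x _ => by ring)
  | cons e L ih =>
    simp only [comp_cons, Dv_sum]
    rw [Finset.sum_congr rfl (fun y _ => ih _ _), Finset.sum_comm]
    exact Finset.sum_congr rfl (fun x _ => by rw [Finset.mul_sum])

lemma tens_sum_left {ι : Type} (s : Finset ι) (b : ι → F) (L : List ((A ⊕ A') × (B ⊕ B')))
    (c : ι → Ker F A B) (c' : Ker F A' B') :
    tens L (fun L' => ∑ x ∈ s, b x * c x L') c' = ∑ x ∈ s, b x * tens L (c x) c' := by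
  induction L generalizing c c' with
  | nil => simp [Finset.sum_mul, mul_assoc]
  | cons e L ih =>
    rcases e with ⟨a | a, z | z⟩
    · simpa only [tens_ll, Dv_sum] using ih _ _
    · simp
    · simp
    · simpa only [tens_rr] using ih _ _

lemma tens_sum_right {ι : Type} (s : Finset ι) (b : ι → F) (L : List ((A ⊕ A') × (B ⊕ B')))
    (c : Ker F A B) (c' : ι → Ker F A' B') :
    tens L c (fun L' => ∑ x ∈ s, b x * c' x L') = ∑ x ∈ s, b x * tens L c (c' x) := by
  induction L generalizing c c' with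
  | nil =>
    simp only [tens_nil, Finset.mul_sum]
    exact Finset.sum_congr rfl (fun x _ => by ring)
  | cons e L ih =>
    rcases e with ⟨a | a, z | z⟩
    · simpa only [tens_ll] using ih _ _
    · simp
    · simp
    · simpa only [tens_rr, Dv_sum] using ih _ _

lemma comp_zero_right [Fintype B] (L : List (A × C)) (c : Ker F A B) :
    comp L c (fun _ => (0 : F) : Ker F B C) = 0 := by
  have := comp_sum_right (∅ : Finset ℕ) (fun _ => (0 : F)) L c (fun _ => (fun _ => 0 : Ker F B C))
  simpa using this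

lemma comp_zero_left [Fintype B] (L : List (A × C)) (c : Ker F B C) :
    comp L (fun _ => (0 : F) : Ker F A B) c = 0 := by
  have := comp_sum_left (∅ : Finset ℕ) (fun _ => (0 : F)) L (fun _ => (fun _ => 0 : Ker F A B)) c
  simpa using this

lemma tens_zero_right (L : List ((A ⊕ A') × (B ⊕ B'))) (c : Ker F A B) :
    tens L c (fun _ => (0 : F) : Ker F A' B') = 0 := by
  have := tens_sum_right (∅ : Finset ℕ) (fun _ => (0 : F)) L c (fun _ => (fun _ => 0 : Ker F A' B'))
  simpa using this

lemma tens_zero_left (L : List ((A ⊕ A') × (B ⊕ B'))) (c : Ker F A' B') :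
    tens L (fun _ => (0 : F) : Ker F A B) c = 0 := by
  have := tens_sum_left (∅ : Finset ℕ) (fun _ => (0 : F)) L (fun _ => (fun _ => 0 : Ker F A B)) c
  simpa using this

/-! ### Bijections -/

lemma Dv_Kp (σ : A ≃ B) (e : A × B) :
    Dv e (Kp σ : Ker F A B) = if σ e.1 = e.2 then Kp σ else fun _ => 0 := by
  funext L
  by_cases h : σ e.1 = e.2 <;> simp [h]

lemma comp_Kp_right [Fintype B] (L : List (A × C)) (c : Ker F A B) (σ : B ≃ C) :
    comp L c (Kp σ) = rl id σ.symm c L := by
  induction L generalizing c with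
  | nil => simp
  | cons e L ih =>
    rw [comp_cons, Finset.sum_eq_single (σ.symm e.2)]
    · rw [Dv_Kp]
      simp only [Equiv.apply_symm_apply, if_true]
      rw [ih]
      rfl
    · intro b _ hb
      rw [Dv_Kp, if_neg, comp_zero_right]
      intro h
      exact hb (by rw [← h]; exact (σ.symm_apply_apply b).symm)
    · intro h
      exact absurd (Finset.mem_univ _) h

lemma comp_Kp_left [Fintype B] (L : List (A × C)) (c : Ker F B C) (σ : A ≃ B) :
    comp L (Kp σ) c = rl σ id c L := by
  induction L generalizing c with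
  | nil => simp
  | cons e L ih =>
    rw [comp_cons, Finset.sum_eq_single (σ e.1)]
    · rw [Dv_Kp]
      simp only [if_true]
      rw [ih]
      rfl
    · intro b _ hb
      rw [Dv_Kp, if_neg, comp_zero_left]
      exact fun h => hb h.symm
    · intro h
      exact absurd (Finset.mem_univ _) h

lemma rl_Kp (σ : A' ≃ B') (h : A ≃ A') (g : B ≃ B') (L : List (A × B)) :
    rl h g (Kp σ : Ker F A' B') L = Kp ((h.trans σ).trans g.symm) L := by
  induction L with
  | nil => rfl
  | cons e L ih =>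
    have : rl h g (Kp σ : Ker F A' B') (e :: L)
        = if σ (h e.1) = g e.2 then rl h g (Kp σ : Ker F A' B') L else 0 := rfl
    rw [this, ih]
    simp only [Kp_cons, Equiv.trans_apply, Equiv.symm_apply_eq]

lemma tens_Kp (L : List ((A ⊕ A') × (B ⊕ B'))) (σ : A ≃ B) (τ : A' ≃ B') :
    tens L (Kp σ : Ker F A B) (Kp τ) = Kp (Equiv.sumCongr σ τ) L := by
  induction L with
  | nil => simp
  | cons e L ih =>
    rcases e with ⟨a | a, z | z⟩
    · rw [tens_ll, Dv_Kp, Kp_cons]
      by_cases h : σ a = z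
      · simp [h, ih]
      · simp [h, tens_zero_left]
    · simp
    · simp
    · rw [tens_rr, Dv_Kp, Kp_cons]
      by_cases h : τ a = z
      · simp [h, ih]
      · simp [h, tens_zero_right]

/-! ### Dependence on short lists only -/

/-- Agreement on lists of length at most `k`. -/
def Agr (k : ℕ) (c c' : Ker F A B) : Prop := ∀ L : List (A × B), L.length ≤ k → c L = c' L

lemma Agr.refl (k : ℕ) (c : Ker F A B) : Agr k c c := fun _ _ => rfl

lemma Agr.symm {k : ℕ} {c c' : Ker F A B} (h : Agr k c c') : Agr k c' c :=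
  fun L hL => (h L hL).symm

lemma Agr.trans {k : ℕ} {c c' c'' : Ker F A B} (h : Agr k c c') (h' : Agr k c' c'') :
    Agr k c c'' := fun L hL => (h L hL).trans (h' L hL)

lemma Agr.mono {k l : ℕ} (hkl : l ≤ k) {c c' : Ker F A B} (h : Agr k c c') : Agr l c c' :=
  fun L hL => h L (hL.trans hkl)

lemma Agr.Dv {k : ℕ} {c c' : Ker F A B} (h : Agr (k + 1) c c') (e : A × B) :
    Agr k (Dv e c) (Dv e c') := fun L hL => h (e :: L) (by simpa using hL)

lemma Agr.rl {k : ℕ} {c c' : Ker F A' B'} (h : Agr k c c') (f : A → A') (g : B → B') :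
    Agr k (rl f g c) (rl f g c') := fun L hL => h _ (by simpa using hL)

lemma comp_congr [Fintype B] (L : List (A × C)) (c₁ c₂ : Ker F A B) (c₁' c₂' : Ker F B C)
    (h : Agr L.length c₁ c₂) (h' : Agr L.length c₁' c₂') :
    comp L c₁ c₁' = comp L c₂ c₂' := by
  induction L generalizing c₁ c₂ c₁' c₂' with
  | nil => simp [h [] (by simp), h' [] (by simp)]
  | cons e L ih =>
    simp only [comp_cons]
    exact Finset.sum_congr rfl (fun b _ => ih _ _ _ _ (Agr.Dv h _) (Agr.Dv h' _))

lemma tens_congr (L : List ((A ⊕ A') × (B ⊕ B'))) (c₁ c₂ : Ker F A B) (c₁' c₂' : Ker F A' B')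
    (h : Agr L.length c₁ c₂) (h' : Agr L.length c₁' c₂') :
    tens L c₁ c₁' = tens L c₂ c₂' := by
  induction L generalizing c₁ c₂ c₁' c₂' with
  | nil => simp [h [] (by simp), h' [] (by simp)]
  | cons e L ih =>
    rcases e with ⟨a | a, z | z⟩
    · exact ih _ _ _ _ (Agr.Dv h _) (Agr.mono (by simp) h')
    · simp
    · simp
    · exact ih _ _ _ _ (Agr.mono (by simp) h) (Agr.Dv h' _)

lemma Agr.cmp [Fintype B] {k : ℕ} {c₁ c₂ : Ker F A B} {c₁' c₂' : Ker F B C}
    (h : Agr k c₁ c₂) (h' : Agr k c₁' c₂') : Agr k (cmp c₁ c₁') (cmp c₂ c₂') :=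
  fun L hL => comp_congr L _ _ _ _ (h.mono hL) (h'.mono hL)

lemma Agr.tn {k : ℕ} {c₁ c₂ : Ker F A B} {c₁' c₂' : Ker F A' B'}
    (h : Agr k c₁ c₂) (h' : Agr k c₁' c₂') : Agr k (tn c₁ c₁') (tn c₂ c₂') :=
  fun L hL => tens_congr L _ _ _ _ (h.mono hL) (h'.mono hL)

/-! ### Interchange, associativity, commutativity -/

lemma comp_tens [Fintype B] [Fintype B'] (L : List ((A ⊕ A') × (C ⊕ C')))
    (c₁ : Ker F A B) (c₂ : Ker F B C) (c₁' : Ker F A' B') (c₂' : Ker F B' C') :
    comp L (tn c₁ c₁') (tn c₂ c₂') = tens L (cmp c₁ c₂) (cmp c₁' c₂') := by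
  induction L generalizing c₁ c₂ c₁' c₂' with
  | nil => simp [tn, cmp]; ring
  | cons e L ih =>
    have key : ∀ (x : A ⊕ A') (z : C ⊕ C'),
        comp ((x, z) :: L) (tn c₁ c₁') (tn c₂ c₂')
        = (∑ b : B, comp L (Dv (x, Sum.inl b) (tn c₁ c₁')) (Dv (Sum.inl b, z) (tn c₂ c₂')))
        + ∑ b : B', comp L (Dv (x, Sum.inr b) (tn c₁ c₁')) (Dv (Sum.inr b, z) (tn c₂ c₂')) := by
      intro x z
      rw [comp_cons, Fintype.sum_sum_type]
    have h0l : ∀ (a : A) (b : B'), Dv (Sum.inl a, Sum.inr b) (tn c₁ c₁') = fun _ => 0 :=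
      fun a b => rfl
    have h0r : ∀ (a : A') (b : B), Dv (Sum.inr a, Sum.inl b) (tn c₁ c₁') = fun _ => 0 :=
      fun a b => rfl
    have h1l : ∀ (a : B) (b : C'), Dv (Sum.inl a, Sum.inr b) (tn c₂ c₂') = fun _ => 0 :=
      fun a b => rfl
    have h1r : ∀ (a : B') (b : C), Dv (Sum.inr a, Sum.inl b) (tn c₂ c₂') = fun _ => 0 :=
      fun a b => rfl
    rcases e with ⟨a | a, z | z⟩
    · rw [key, tens_ll]
      have e1 : (Dv (a, z) (cmp c₁ c₂) : Ker F A C)
          = fun L' => ∑ b : B, (1 : F) * cmp (Dv (a, b) c₁) (Dv (b, z) c₂) L' := by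
        funext L'
        simp [cmp, comp_cons]
      rw [e1, tens_sum_left]
      simp only [h0l, comp_zero_left, Finset.sum_const_zero, add_zero, one_mul]
      exact Finset.sum_congr rfl (fun b _ => ih _ _ _ _)
    · rw [key, tens_lr]
      simp only [h0l, h1l, comp_zero_left, comp_zero_right, Finset.sum_const_zero, add_zero]
    · rw [key, tens_rl]
      simp only [h0r, h1r, comp_zero_left, comp_zero_right, Finset.sum_const_zero, add_zero]
    · rw [key, tens_rr]
      have e1 : (Dv (a, z) (cmp c₁' c₂') : Ker F A' C')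
          = fun L' => ∑ b : B', (1 : F) * cmp (Dv (a, b) c₁') (Dv (b, z) c₂') L' := by
        funext L'
        simp [cmp, comp_cons]
      rw [e1, tens_sum_right]
      simp only [h0r, comp_zero_left, Finset.sum_const_zero, zero_add, one_mul]
      exact Finset.sum_congr rfl (fun b _ => ih _ _ _ _)

lemma cmp_tn [Fintype B] [Fintype B']
    (c₁ : Ker F A B) (c₂ : Ker F B C) (c₁' : Ker F A' B') (c₂' : Ker F B' C') :
    cmp (tn c₁ c₁') (tn c₂ c₂') = tn (cmp c₁ c₂) (cmp c₁' c₂') := by
  funext L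
  exact comp_tens L _ _ _ _

lemma cmp_Kp [Fintype B] (c : Ker F A B) (σ : B ≃ C) : cmp c (Kp σ) = rl id σ.symm c := by
  funext L
  exact comp_Kp_right L c σ

lemma Kp_cmp [Fintype B] (c : Ker F B C) (σ : A ≃ B) : cmp (Kp σ) c = rl σ id c := by
  funext L
  exact comp_Kp_left L c σ

lemma cmp_id [Fintype B] (c : Ker F A B) : cmp c (Kp (Equiv.refl B)) = c := by
  rw [cmp_Kp]
  exact rl_id c

lemma id_cmp [Fintype A] (c : Ker F A B) : cmp (Kp (Equiv.refl A)) c = c := by
  rw [Kp_cmp]
  exact rl_id c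

lemma tn_Kp (σ : A ≃ B) (τ : A' ≃ B') :
    tn (Kp σ : Ker F A B) (Kp τ) = Kp (Equiv.sumCongr σ τ) := by
  funext L
  exact tens_Kp L σ τ

lemma tens_assoc (L : List (((A ⊕ A') ⊕ A'') × ((B ⊕ B') ⊕ B'')))
    (a : Ker F A B) (b : Ker F A' B') (c : Ker F A'' B'') :
    tens L (tn a b) c = tens (L.map (Prod.map (Equiv.sumAssoc A A' A'') (Equiv.sumAssoc B B' B'')))
      a (tn b c) := by
  induction L generalizing a b c with
  | nil => simp [tn]; ring
  | cons e L ih =>
    have z1 : ∀ (x : A) (y : B'), Dv (Sum.inl x, Sum.inr y) (tn a b) = fun _ => 0 :=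
      fun _ _ => rfl
    have z2 : ∀ (x : A') (y : B), Dv (Sum.inr x, Sum.inl y) (tn a b) = fun _ => 0 :=
      fun _ _ => rfl
    have z3 : ∀ (x : A') (y : B''), Dv (Sum.inl x, Sum.inr y) (tn b c) = fun _ => 0 :=
      fun _ _ => rfl
    have z4 : ∀ (x : A'') (y : B'), Dv (Sum.inr x, Sum.inl y) (tn b c) = fun _ => 0 :=
      fun _ _ => rfl
    rcases e with ⟨(x | x) | x, (y | y) | y⟩
    · exact ih _ _ _
    · simp [z1, tens_zero_left]
    · simp
    · simp [z2, tens_zero_left]
    · exact ih _ _ _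
    · simp [z3, tens_zero_right]
    · simp
    · simp [z4, tens_zero_right]
    · exact ih _ _ _

lemma tn_assoc (a : Ker F A B) (b : Ker F A' B') (c : Ker F A'' B'') :
    tn (tn a b) c = rl (Equiv.sumAssoc A A' A'') (Equiv.sumAssoc B B' B'') (tn a (tn b c)) := by
  funext L
  exact tens_assoc L a b c

lemma tens_comm (L : List ((A ⊕ A') × (B ⊕ B'))) (a : Ker F A B) (b : Ker F A' B') :
    tens L a b = tens (L.map (Prod.map (Equiv.sumComm A A') (Equiv.sumComm B B'))) b a := by
  induction L generalizing a b with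
  | nil => simp [mul_comm]
  | cons e L ih =>
    rcases e with ⟨x | x, y | y⟩
    · exact ih _ _
    · simp
    · simp
    · exact ih _ _

lemma tn_comm (a : Ker F A B) (b : Ker F A' B') :
    tn a b = rl (Equiv.sumComm A A') (Equiv.sumComm B B') (tn b a) := by
  funext L
  exact tens_comm L a b

lemma tn_rl {A₁ B₁ A₁' B₁' : Type} (h : A → A₁) (g : B → B₁) (h' : A' → A₁') (g' : B' → B₁')
    (c : Ker F A₁ B₁) (c' : Ker F A₁' B₁') :
    tn (rl h g c) (rl h' g' c') = rl (Sum.map h h') (Sum.map g g') (tn c c') := by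
  funext L
  show tens L (rl h g c) (rl h' g' c') = tens (L.map (Prod.map (Sum.map h h') (Sum.map g g'))) c c'
  induction L generalizing c c' with
  | nil => rfl
  | cons e L ih =>
    rcases e with ⟨x | x, y | y⟩
    · exact ih (Dv (h x, g y) c) c'
    · rfl
    · rfl
    · exact ih c (Dv (h' x, g' y) c')

end basic

end

end Pool.Agent.J6H0.Bij
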