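import Mathlib
import Pool.Agent.J6H0.Bij.Ker

set_option autoImplicit false
set_option linter.unusedSectionVars false

/-!
Real kernels: finite linear combinations of kernels of bijections.
-/

namespace Pool.Agent.J6H0.Bij

open scoped Classical

noncomputable section

variable {F : Type} [CommRing F]

/-- A kernel is real if it is a finite linear combination of kernels of bijections. -/
def Real {A B : Type} (c : Ker F A B) : Prop :=
  ∃ (ι : Type) (_ : Fintype ι) (b : ι → F) (f : ι → (A ≃ B)), ∀ L, c L = ∑ x, b x * Kp (f x) L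

/-- A kernel is symmetric if it does not depend on the order of the list. -/
def Sym {A B : Type} (c : Ker F A B) : Prop :=
  ∀ L L' : List (A × B), L.Perm L' → c L = c L'

section

variable {A A' A'' B B' B'' C C' : Type}

lemma Real.Kp (σ : A ≃ B) : Real (Kp σ : Ker F A B) :=
  ⟨Unit, inferInstance, fun _ => 1, fun _ => σ, fun L => by simp⟩

lemma Real.sum {κ : Type} [Fintype κ] (t : κ → F) (c : κ → Ker F A B) (h : ∀ k, Real (c k)) :
    Real (fun L => ∑ k, t k * c k L) := by
  choose ι hι b f hf using h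
  refine ⟨Σ k, ι k, inferInstance, fun x => t x.1 * b x.1 x.2, fun x => f x.1 x.2, fun L => ?_⟩
  rw [Fintype.sum_sigma]
  refine Finset.sum_congr rfl (fun k _ => ?_)
  simp only []
  rw [hf, Finset.mul_sum]
  exact Finset.sum_congr rfl (fun x _ => by ring)

lemma Real.rl {c : Ker F A' B'} (hc : Real c) (h : A ≃ A') (g : B ≃ B') :
    Real (rl h g c) := by
  obtain ⟨ι, hι, b, f, hf⟩ := hc
  refine ⟨ι, hι, b, fun x => (h.trans (f x)).trans g.symm, fun L => ?_⟩
  have : Bij.rl h g c L = c (L.map (Prod.map h g)) := rfl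
  rw [this, hf]
  exact Finset.sum_congr rfl (fun x _ => by rw [← rl_Kp]; rfl)

lemma Real.Dv {c : Ker F A B} (hc : Real c) (e : A × B) : Real (Dv e c) := by
  obtain ⟨ι, hι, b, f, hf⟩ := hc
  refine ⟨ι, hι, fun x => if f x e.1 = e.2 then b x else 0, f, fun L => ?_⟩
  rw [Dv_apply, hf]
  refine Finset.sum_congr rfl (fun x _ => ?_)
  rw [Kp_cons]
  by_cases h : f x e.1 = e.2
  · simp [h]
  · simp [h]

lemma Real.cmp [Fintype B] {c : Ker F A B} {c' : Ker F B C} (hc : Real c) (hc' : Real c') :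
    Real (cmp c c') := by
  obtain ⟨ι, hι, b, f, hf⟩ := hc
  obtain ⟨ι', hι', b', f', hf'⟩ := hc'
  refine ⟨ι × ι', inferInstance, fun x => b x.1 * b' x.2, fun x => (f x.1).trans (f' x.2),
    fun L => ?_⟩
  have e1 : c = fun L => ∑ x, b x * Bij.Kp (f x) L := funext hf
  have e2 : c' = fun L => ∑ x, b' x * Bij.Kp (f' x) L := funext hf'
  show comp L c c' = _
  rw [e1, comp_sum_left, Fintype.sum_prod_type]
  refine Finset.sum_congr rfl (fun x _ => ?_)
  rw [e2, comp_sum_right, Finset.mul_sum]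
  refine Finset.sum_congr rfl (fun y _ => ?_)
  rw [comp_Kp_right]
  have := rl_Kp (F := F) (f x) (Equiv.refl A) (f' y).symm L
  have h2 : Bij.rl id ((f' y).symm) (Bij.Kp (f x) : Ker F A B) L
    = Bij.Kp ((f x).trans (f' y)) L := this
  rw [h2]
  ring

lemma Real.tn {c : Ker F A B} {c' : Ker F A' B'} (hc : Real c) (hc' : Real c') :
    Real (tn c c') := by
  obtain ⟨ι, hι, b, f, hf⟩ := hc
  obtain ⟨ι', hι', b', f', hf'⟩ := hc'
  refine ⟨ι × ι', inferInstance, fun x => b x.1 * b' x.2,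
    fun x => Equiv.sumCongr (f x.1) (f' x.2), fun L => ?_⟩
  have e1 : c = fun L => ∑ x, b x * Bij.Kp (f x) L := funext hf
  have e2 : c' = fun L => ∑ x, b' x * Bij.Kp (f' x) L := funext hf'
  show tens L c c' = _
  rw [e1, tens_sum_left, Fintype.sum_prod_type]
  refine Finset.sum_congr rfl (fun x _ => ?_)
  rw [e2, tens_sum_right, Finset.mul_sum]
  refine Finset.sum_congr rfl (fun y _ => ?_)
  rw [tens_Kp]
  ring

/-! ### Symmetric kernels -/

lemma Sym.Dv {c : Ker F A B} (hc : Sym c) (e : A × B) : Sym (Dv e c) :=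
  fun _ _ h => hc _ _ (List.Perm.cons e h)

lemma Sym.Dv_Dv {c : Ker F A B} (hc : Sym c) (e f : A × B) :
    Bij.Dv e (Bij.Dv f c) = Bij.Dv f (Bij.Dv e c) := by
  funext L
  exact hc _ _ (List.Perm.swap e f L)

lemma Sym.rl {c : Ker F A' B'} (hc : Sym c) (h : A → A') (g : B → B') : Sym (rl h g c) :=
  fun _ _ hL => hc _ _ (hL.map _)

lemma Kp_eq (σ : A ≃ B) (L : List (A × B)) :
    (Bij.Kp σ L : F) = if ∀ e ∈ L, σ e.1 = e.2 then 1 else 0 := by
  induction L with
  | nil => simp
  | cons e L ih =>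
    rw [Kp_cons, ih]
    by_cases h : σ e.1 = e.2 <;> simp [h]

lemma Sym.Kp (σ : A ≃ B) : Sym (Kp σ : Ker F A B) := by
  intro L L' h
  rw [Kp_eq, Kp_eq]
  have : (∀ e ∈ L, σ e.1 = e.2) ↔ (∀ e ∈ L', σ e.1 = e.2) := by
    constructor
    · intro H e he
      exact H e (h.mem_iff.mpr he)
    · intro H e he
      exact H e (h.mem_iff.mp he)
  simp only [this]

lemma Real.sym {c : Ker F A B} (hc : Real c) : Sym c := by
  obtain ⟨ι, hι, b, f, hf⟩ := hc
  intro L L' h
  rw [hf, hf]
  exact Finset.sum_congr rfl (fun x _ => by rw [Sym.Kp (f x) L L' h])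

lemma Sym.tn {c : Ker F A B} {c' : Ker F A' B'} (hc : Sym c) (hc' : Sym c') : Sym (tn c c') := by
  intro L L' h
  show tens L c c' = tens L' c c'
  induction h generalizing c c' with
  | nil => rfl
  | cons e h ih =>
    rcases e with ⟨x | x, y | y⟩
    · exact ih (hc.Dv _) hc'
    · rfl
    · rfl
    · exact ih hc (hc'.Dv _)
  | swap e f L =>
    rcases e with ⟨x | x, y | y⟩ <;> rcases f with ⟨x' | x', y' | y'⟩ <;>
      simp only [tens_ll, tens_rr, tens_lr, tens_rl]
    · rw [hc.Dv_Dv]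
    · rw [hc'.Dv_Dv]
  | trans _ _ ih1 ih2 => rw [ih1 hc hc', ih2 hc hc']

lemma Sym.cmp [Fintype B] {c : Ker F A B} {c' : Ker F B C} (hc : Sym c) (hc' : Sym c') :
    Sym (cmp c c') := by
  intro L L' h
  show comp L c c' = comp L' c c'
  induction h generalizing c c' with
  | nil => rfl
  | cons e h ih =>
    simp only [comp_cons]
    exact Finset.sum_congr rfl (fun b _ => ih (hc.Dv _) (hc'.Dv _))
  | swap e f L =>
    simp only [comp_cons]
    rw [Finset.sum_comm]
    refine Finset.sum_congr rfl (fun b _ => Finset.sum_congr rfl (fun b' _ => ?_))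
    rw [hc.Dv_Dv, hc'.Dv_Dv]
  | trans _ _ ih1 ih2 => rw [ih1 hc hc', ih2 hc hc']

lemma Sym.zero : Sym (fun _ => (0 : F) : Ker F A B) := fun _ _ _ => rfl

end

end

end Pool.Agent.J6H0.Bij
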