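import Mathlib
import Pool.Agent.J6H0.Bij.Real

set_option autoImplicit false
set_option linter.unusedSectionVars false

/-!
The modules `RU u A B` spanned by relabellings of `u ⊕ id`, and the key lemma: derivatives of
`u ⊕ id` lie in them up to a given length.
-/

namespace Pool.Agent.J6H0.Bij

open scoped Classical

noncomputable section

variable {F : Type} [CommRing F]

/-- Relabelling as a linear map. -/
def rlL {A A' B B' : Type} (h : A → A') (g : B → B') : Ker F A' B' →ₗ[F] Ker F A B where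
  toFun := rl h g
  map_add' _ _ := rfl
  map_smul' _ _ := rfl

/-- Relabellings of `u ⊕ id`. -/
def gens {X Y : Type} (u : Ker F X Y) (A B : Type) : Set (Ker F A B) :=
  {c | ∃ (Z : Type) (h : A ≃ X ⊕ Z) (g : B ≃ Y ⊕ Z), c = rl h g (tn u (Kp (Equiv.refl Z)))}

/-- The span of the relabellings of `u ⊕ id`. -/
def RU {X Y : Type} (u : Ker F X Y) (A B : Type) : Submodule F (Ker F A B) :=
  Submodule.span F (gens u A B)

section

variable {X Y A A' B B' C C' : Type} (u : Ker F X Y)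

lemma RU_rl {c : Ker F A' B'} (hc : c ∈ RU u A' B') (h : A ≃ A') (g : B ≃ B') :
    rl h g c ∈ RU u A B := by
  have : RU u A' B' ≤ (RU u A B).comap (rlL h g) := by
    refine Submodule.span_le.mpr ?_
    rintro c ⟨Z, h', g', rfl⟩
    refine Submodule.subset_span ⟨Z, h.trans h', g.trans g', ?_⟩
    show rl h g (rl h' g' (tn u (Kp (Equiv.refl Z)))) = _
    rw [rl_rl]
    rfl
  exact this hc

lemma tn_add_left (a b : Ker F A B) (c : Ker F A' B') : tn (a + b) c = tn a c + tn b c := by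
  funext L
  have := tens_sum_left (Finset.univ : Finset Bool) (fun _ => (1 : F)) L
    (fun x => if x then a else b) c
  simp only [Fintype.sum_bool, one_mul, if_true] at this
  exact this

lemma tn_smul_left (t : F) (a : Ker F A B) (c : Ker F A' B') : tn (t • a) c = t • tn a c := by
  funext L
  have := tens_sum_left (Finset.univ : Finset Unit) (fun _ => t) L (fun _ => a) c
  simp only [Finset.univ_unique, Finset.sum_singleton] at this
  exact this

lemma tn_add_right (c : Ker F A' B') (a b : Ker F A B) : tn c (a + b) = tn c a + tn c b := by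
  funext L
  have := tens_sum_right (Finset.univ : Finset Bool) (fun _ => (1 : F)) L c
    (fun x => if x then a else b)
  simp only [Fintype.sum_bool, one_mul, if_true] at this
  exact this

lemma tn_smul_right (t : F) (c : Ker F A' B') (a : Ker F A B) : tn c (t • a) = t • tn c a := by
  funext L
  have := tens_sum_right (Finset.univ : Finset Unit) (fun _ => t) L c (fun _ => a)
  simp only [Finset.univ_unique, Finset.sum_singleton] at this
  exact this

/-- Sum with a fixed kernel on the right, as a linear map. -/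
def tnL (c : Ker F A' B') : Ker F A B →ₗ[F] Ker F (A ⊕ A') (B ⊕ B') where
  toFun a := tn a c
  map_add' a b := tn_add_left a b c
  map_smul' t a := tn_smul_left t a c

/-- Sum with a fixed kernel on the left, as a linear map. -/
def tnR (c : Ker F A' B') : Ker F A B →ₗ[F] Ker F (A' ⊕ A) (B' ⊕ B) where
  toFun a := tn c a
  map_add' a b := tn_add_right c a b
  map_smul' t a := tn_smul_right t c a

lemma RU_tn_id {c : Ker F A B} (hc : c ∈ RU u A B) (Z' : Type) :
    tn c (Kp (Equiv.refl Z')) ∈ RU u (A ⊕ Z') (B ⊕ Z') := by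
  have : RU u A B ≤ (RU u (A ⊕ Z') (B ⊕ Z')).comap (tnL (Kp (Equiv.refl Z'))) := by
    refine Submodule.span_le.mpr ?_
    rintro c ⟨Z, h', g', rfl⟩
    show tn (rl h' g' (tn u (Kp (Equiv.refl Z)))) (Kp (Equiv.refl Z')) ∈ RU u (A ⊕ Z') (B ⊕ Z')
    have e1 : tn (rl h' g' (tn u (Kp (Equiv.refl Z)))) (Kp (Equiv.refl Z') : Ker F Z' Z')
        = rl (Equiv.sumCongr h' (Equiv.refl Z')) (Equiv.sumCongr g' (Equiv.refl Z'))
          (tn (tn u (Kp (Equiv.refl Z))) (Kp (Equiv.refl Z'))) := by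
      have := tn_rl h' g' id id (tn u (Kp (Equiv.refl Z))) (Kp (Equiv.refl Z') : Ker F Z' Z')
      rw [rl_id] at this
      exact this
    rw [e1]
    refine RU_rl u ?_ _ _
    rw [tn_assoc]
    refine RU_rl u ?_ _ _
    rw [tn_Kp]
    refine Submodule.subset_span ⟨Z ⊕ Z', Equiv.refl _, Equiv.refl _, ?_⟩
    show _ = rl id id _
    rw [rl_id, Equiv.sumCongr_refl]
  exact this hc

lemma RU_sum {ι : Type} [Fintype ι] (b : ι → F) (c : ι → Ker F A B)
    (h : ∀ x, c x ∈ RU u A B) : (fun L => ∑ x, b x * c x L) ∈ RU u A B := by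
  have e : (fun L => ∑ x, b x * c x L) = ∑ x, b x • c x := by
    funext L
    simp
  rw [e]
  exact Submodule.sum_mem _ (fun x _ => Submodule.smul_mem _ _ (h x))

lemma RU_cmp [Fintype B] {c : Ker F A B} (hc : c ∈ RU u A B) {c' : Ker F B C} (hc' : Real c') :
    cmp c c' ∈ RU u A C := by
  obtain ⟨ι, hι, b, f, hf⟩ := hc'
  have e1 : c' = fun L => ∑ x, b x * Kp (f x) L := funext hf
  have e2 : cmp c c' = fun L => ∑ x, b x * rl (Equiv.refl A) (f x).symm c L := by
    funext L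
    show comp L c c' = _
    rw [e1, comp_sum_right]
    exact Finset.sum_congr rfl (fun x _ => by rw [comp_Kp_right]; rfl)
  rw [e2]
  exact RU_sum u _ _ (fun x => RU_rl u hc _ _)

/-- Membership in `RU u A B` up to length `k`. -/
def MkS (k : ℕ) (A B : Type) : Submodule F (Ker F A B) where
  carrier := {c | ∃ r ∈ RU u A B, Agr k c r}
  add_mem' := by
    rintro a b ⟨r, hr, h⟩ ⟨r', hr', h'⟩
    exact ⟨r + r', Submodule.add_mem _ hr hr', fun L hL => by
      show a L + b L = r L + r' L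
      rw [h L hL, h' L hL]⟩
  zero_mem' := ⟨0, Submodule.zero_mem _, fun _ _ => rfl⟩
  smul_mem' := by
    rintro t a ⟨r, hr, h⟩
    exact ⟨t • r, Submodule.smul_mem _ _ hr, fun L hL => by
      show t * a L = t * r L
      rw [h L hL]⟩

lemma mem_MkS {k : ℕ} {c : Ker F A B} : c ∈ MkS u k A B ↔ ∃ r ∈ RU u A B, Agr k c r := Iff.rfl

lemma MkS_of_RU {k : ℕ} {c : Ker F A B} (h : c ∈ RU u A B) : c ∈ MkS u k A B :=
  ⟨c, h, Agr.refl _ _⟩

lemma MkS_congr {k : ℕ} {c c' : Ker F A B} (h : Agr k c c') (hc : c' ∈ MkS u k A B) :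
    c ∈ MkS u k A B := by
  obtain ⟨r, hr, h'⟩ := hc
  exact ⟨r, hr, h.trans h'⟩

lemma MkS_rl {k : ℕ} {c : Ker F A' B'} (hc : c ∈ MkS u k A' B') (h : A ≃ A') (g : B ≃ B') :
    rl h g c ∈ MkS u k A B := by
  obtain ⟨r, hr, h'⟩ := hc
  exact ⟨_, RU_rl u hr h g, h'.rl _ _⟩

lemma MkS_tn_id {k : ℕ} {c : Ker F A B} (hc : c ∈ MkS u k A B) (Z' : Type) :
    tn c (Kp (Equiv.refl Z')) ∈ MkS u k (A ⊕ Z') (B ⊕ Z') := by
  obtain ⟨r, hr, h'⟩ := hc
  exact ⟨_, RU_tn_id u hr Z', h'.tn (Agr.refl _ _)⟩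

end

section keylemma

variable {X Y : Type} [Fintype X] [Fintype Y] (u : Ker F X Y) (w : Ker F Y X)
  (P : Ker F (X ⊕ Y) (Y ⊕ X))

/-- The square of `P`, on `Y ⊕ X`. -/
def beta : Ker F (Y ⊕ X) (Y ⊕ X) :=
  cmp (rl (Equiv.sumComm Y X) (Equiv.sumComm X Y) P) P

lemma beta_real (hP : Real P) : Real (beta P) := (hP.rl _ _).cmp hP

lemma tn_assoc' {A A' A'' B B' B'' : Type} (a : Ker F A B) (b : Ker F A' B') (c : Ker F A'' B'') :
    tn a (tn b c) = rl (Equiv.sumAssoc A A' A'').symm (Equiv.sumAssoc B B' B'').symm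
      (tn (tn a b) c) := by
  rw [tn_assoc, rl_rl]
  have h1 : (Equiv.sumAssoc A A' A'' : _ → _) ∘ (Equiv.sumAssoc A A' A'').symm = id := by
    funext x; simp
  have h2 : (Equiv.sumAssoc B B' B'' : _ → _) ∘ (Equiv.sumAssoc B B' B'').symm = id := by
    funext x; simp
  rw [h1, h2, rl_id]

lemma key_beta (k : ℕ) (hP : Real P) (hag : Agr (k + 1) P (tn u w)) (e : X × Y) :
    tn (Dv e u) (beta P) ∈ MkS u k (X ⊕ (Y ⊕ X)) (Y ⊕ (Y ⊕ X)) := by
  set v : Ker F X Y := Dv e u with hv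
  set S1 : Ker F (X ⊕ (Y ⊕ X)) (X ⊕ (Y ⊕ Y)) :=
    tn (Kp (Equiv.refl X)) (tn (Kp (Equiv.refl Y)) u) with hS1
  set S2 : Ker F (X ⊕ (Y ⊕ Y)) (Y ⊕ (X ⊕ Y)) := tn v (tn w (Kp (Equiv.refl Y))) with hS2
  set S3 : Ker F (Y ⊕ (X ⊕ Y)) (Y ⊕ (Y ⊕ X)) := tn (Kp (Equiv.refl Y)) (tn u w) with hS3
  have h1 : cmp (cmp S1 S2) S3 = tn v (tn (cmp w u) (cmp u w)) := by
    rw [hS1, hS2, hS3, cmp_tn, cmp_tn, cmp_tn, cmp_tn, id_cmp, cmp_id, id_cmp, cmp_id]
  have hagk : Agr k P (tn u w) := hag.mono (Nat.le_succ k)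
  have h2 : Agr k (tn v (beta P)) (tn v (tn (cmp w u) (cmp u w))) := by
    refine (Agr.refl _ _).tn ?_
    rw [← cmp_tn]
    refine Agr.cmp ?_ hagk
    rw [tn_comm w u]
    exact hagk.rl _ _
  have h3 : Agr k S2 (rl (Equiv.sumAssoc X Y Y).symm (Equiv.sumAssoc Y X Y).symm
      (tn (Dv (Sum.inl e.1, Sum.inl e.2) P) (Kp (Equiv.refl Y)))) := by
    rw [hS2, tn_assoc']
    refine Agr.rl (Agr.tn ?_ (Agr.refl _ _)) _ _
    have := (hag.Dv (Sum.inl e.1, Sum.inl e.2)).symm
    exact this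
  have h4 : Agr k S3 (tn (Kp (Equiv.refl Y)) P) := (Agr.refl _ _).tn hagk.symm
  refine MkS_congr u h2 ?_
  rw [← h1]
  refine MkS_congr u (((Agr.refl _ S1).cmp h3).cmp h4) ?_
  refine MkS_of_RU u (RU_cmp u (RU_cmp u ?_ ?_) ?_)
  · rw [hS1, tn_assoc', tn_Kp, tn_comm]
    refine RU_rl u (RU_rl u ?_ _ _) _ _
    refine Submodule.subset_span ⟨X ⊕ Y, Equiv.refl _, Equiv.refl _, ?_⟩
    show _ = rl id id _
    rw [rl_id, Equiv.sumCongr_refl]
  · exact ((hP.Dv _).tn (Real.Kp _)).rl _ _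
  · exact (Real.Kp _).tn hP

end keylemma

end

end Pool.Agent.J6H0.Bij
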