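import Mathlib
import Pool.Agent.J6H0.Bij.Key

set_option autoImplicit false
set_option linter.unusedSectionVars false

/-!
The ideal argument: if `v ⊕ β` is in the module for one real `β` of total mass one with small
support, then `v ⊕ id` is.
-/

namespace Pool.Agent.J6H0.Bij

open scoped Classical

noncomputable section

variable {F : Type} [CommRing F]

section theta

variable {Z : Type}

/-- Product of the differences `1 - (a b)` over a list of pairs. -/
def th : List (Z × Z) → Ker F Z Z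
  | [] => Kp (Equiv.refl Z)
  | q :: Q => fun L => th Q L - th Q (L.map (Prod.map (Equiv.swap q.1 q.2) id))

/-- All entries of a list of pairs. -/
def ent (Q : List (Z × Z)) : List Z := Q.flatMap (fun q => [q.1, q.2])

@[simp] lemma ent_nil : ent ([] : List (Z × Z)) = [] := rfl

@[simp] lemma ent_cons (q : Z × Z) (Q : List (Z × Z)) : ent (q :: Q) = q.1 :: q.2 :: ent Q := rfl

lemma th_real (Q : List (Z × Z)) : Real (th Q : Ker F Z Z) := by
  induction Q with
  | nil => exact Real.Kp _
  | cons q Q ih =>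
    have h := Real.sum (F := F) (κ := Bool) (fun x => if x then 1 else -1)
      (fun x => if x then th Q else rl (Equiv.swap q.1 q.2) (Equiv.refl Z) (th Q))
      (fun x => by
        cases x
        · exact ih.rl _ _
        · exact ih)
    have e : (th (q :: Q) : Ker F Z Z) = fun L => ∑ x : Bool, (if x then 1 else -1) *
        (if x then th Q else rl (Equiv.swap q.1 q.2) (Equiv.refl Z) (th Q) : Ker F Z Z) L := by
      funext L
      simp only [Fintype.sum_bool, if_true, one_mul]
      show th Q L - th Q (L.map (Prod.map (Equiv.swap q.1 q.2) id)) = _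
      simp [rl, sub_eq_add_neg]
    rw [e]
    exact h

lemma th_fix (Q : List (Z × Z)) (z : Z) (hz : z ∉ ent Q) (t : Z) (L : List (Z × Z)) :
    (th Q ((z, t) :: L) : F) = if z = t then th Q L else 0 := by
  induction Q generalizing L with
  | nil => by_cases h : z = t <;> simp [th, h]
  | cons q Q ih =>
    simp only [ent_cons, List.mem_cons, not_or] at hz
    obtain ⟨h1, h2, h3⟩ := hz
    have hs : Equiv.swap q.1 q.2 z = z := Equiv.swap_apply_of_ne_of_ne h1 h2
    show th Q ((z, t) :: L) - th Q (((z, t) :: L).map (Prod.map (Equiv.swap q.1 q.2) id)) = _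
    rw [List.map_cons, Prod.map_apply, hs, id, ih h3, ih h3]
    show _ = if z = t then th Q L - th Q (L.map (Prod.map (Equiv.swap q.1 q.2) id)) else 0
    split_ifs <;> simp

lemma th_zero (Q : List (Z × Z)) (hQ : (ent Q).Nodup) (L : List (Z × Z))
    (hL : L.length < Q.length) : (th Q L : F) = 0 := by
  induction Q generalizing L with
  | nil => simp at hL
  | cons q Q ih =>
    simp only [ent_cons, List.nodup_cons, List.mem_cons, not_or] at hQ
    obtain ⟨⟨hab, h1⟩, h2, h3⟩ := hQ
    have aux : ∀ M : List (Z × Z), M.length < (q :: Q).length →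
        (∃ e ∈ M, e.1 = q.1 ∨ e.1 = q.2) → (th Q M : F) = 0 := by
      rintro M hM ⟨e, he, heq⟩
      obtain ⟨M', hM'⟩ : ∃ M', M.Perm (e :: M') := ⟨_, List.perm_cons_erase he⟩
      rw [(th_real Q).sym _ _ hM']
      have hnot : e.1 ∉ ent Q := by
        rcases heq with h | h <;> rw [h] <;> assumption
      have := th_fix (F := F) Q e.1 hnot e.2 M'
      rw [show e :: M' = (e.1, e.2) :: M' from rfl, this]
      split_ifs
      · refine ih h3 _ ?_
        have := hM'.length_eq
        simp only [List.length_cons] at this hM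
        omega
      · rfl
    show th Q L - th Q (L.map (Prod.map (Equiv.swap q.1 q.2) id)) = 0
    by_cases hex : ∃ e ∈ L, e.1 = q.1 ∨ e.1 = q.2
    · rw [aux L hL hex, aux _ (by simpa using hL), sub_zero]
      obtain ⟨e, he, heq⟩ := hex
      refine ⟨_, List.mem_map_of_mem he, ?_⟩
      rcases heq with h | h
      · right; simp [Prod.map, h]
      · left; simp [Prod.map, h]
    · push Not at hex
      have : L.map (Prod.map (Equiv.swap q.1 q.2) id) = L := by
        conv_rhs => rw [← List.map_id L]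
        refine List.map_congr_left (fun e he => ?_)
        have := hex e he
        show (Equiv.swap q.1 q.2 e.1, e.2) = e
        rw [Equiv.swap_apply_of_ne_of_ne this.1 this.2]
      rw [this, sub_self]

end theta

section ideal

variable {X Y : Type} [Fintype X] [Fintype Y] (u : Ker F X Y) (w : Ker F Y X)
  (P : Ker F (X ⊕ Y) (Y ⊕ X)) (k : ℕ) (e : X × Y) (Z : Type) [Fintype Z]

/-- The kernels `c` on `Z` with `Dv e u ⊕ c` in the module up to length `k`. -/
def JJ : Submodule F (Ker F Z Z) := (MkS u k (X ⊕ Z) (Y ⊕ Z)).comap (tnR (Dv e u))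

variable {Z}

lemma mem_JJ {c : Ker F Z Z} : c ∈ JJ u k e Z ↔ tn (Dv e u) c ∈ MkS u k (X ⊕ Z) (Y ⊕ Z) := Iff.rfl

lemma tn_rl_right {A B A' B' A₁ B₁ : Type} (c : Ker F A B) (h : A' → A₁) (g : B' → B₁)
    (c' : Ker F A₁ B₁) : tn c (rl h g c') = rl (Sum.map id h) (Sum.map id g) (tn c c') := by
  have := tn_rl (F := F) id id h g c c'
  rwa [rl_id] at this

lemma JJ_rl {c : Ker F Z Z} (hc : c ∈ JJ u k e Z) (h g : Z ≃ Z) : rl h g c ∈ JJ u k e Z := by
  rw [mem_JJ, tn_rl_right]
  exact MkS_rl u hc (Equiv.sumCongr (Equiv.refl X) h) (Equiv.sumCongr (Equiv.refl Y) g)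

lemma JJ_sum {ι : Type} [Fintype ι] (b : ι → F) (c : ι → Ker F Z Z)
    (h : ∀ x, c x ∈ JJ u k e Z) : (fun L => ∑ x, b x * c x L) ∈ JJ u k e Z := by
  have e : (fun L => ∑ x, b x * c x L) = ∑ x, b x • c x := by
    funext L
    simp
  rw [e]
  exact Submodule.sum_mem _ (fun x _ => Submodule.smul_mem _ _ (h x))

lemma JJ_cmp {c : Ker F Z Z} (hc : c ∈ JJ u k e Z) {c' : Ker F Z Z} (hc' : Real c') :
    cmp c c' ∈ JJ u k e Z := by
  obtain ⟨ι, hι, b, f, hf⟩ := hc'
  have e1 : c' = fun L => ∑ x, b x * Kp (f x) L := funext hf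
  have e2 : cmp c c' = fun L => ∑ x, b x * rl (Equiv.refl Z) (f x).symm c L := by
    funext L
    show comp L c c' = _
    rw [e1, comp_sum_right]
    exact Finset.sum_congr rfl (fun x _ => by rw [comp_Kp_right]; rfl)
  rw [e2]
  exact JJ_sum u k e _ _ (fun x => JJ_rl u k e hc _ _)

lemma exists_beta (hP : Real P) (hP1 : P [] = 1) (hag : Agr (k + 1) P (tn u w)) (S : Finset Z)
    (hS : Fintype.card (Y ⊕ X) + S.card ≤ Fintype.card Z) :
    ∃ (ι : Type) (_ : Fintype ι) (b : ι → F) (f : ι → (Z ≃ Z)),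
      (∀ x, ∀ z ∈ S, f x z = z) ∧ (∑ x, b x = 1) ∧
      (fun L => ∑ x, b x * Kp (f x) L) ∈ JJ u k e Z := by
  obtain ⟨ι, hι, b, f, hf⟩ := beta_real P hP
  have hemb : Nonempty ((Y ⊕ X) ↪ {z : Z // z ∉ S}) := by
    refine Function.Embedding.nonempty_of_card_le ?_
    have h1 : Fintype.card {z : Z // z ∉ S} = Fintype.card Z - S.card := by
      rw [Fintype.card_subtype_compl, Fintype.card_coe]
    omega
  obtain ⟨i0⟩ := hemb
  let i1 : (Y ⊕ X) → Z := fun x => (i0 x : Z)
  have hi1 : Function.Injective i1 := fun a b h => i0.injective (Subtype.ext h)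
  let eZ : Z ≃ (Y ⊕ X) ⊕ {z : Z // z ∉ Set.range i1} :=
    (Equiv.sumCompl (fun z => z ∈ Set.range i1)).symm.trans
      (Equiv.sumCongr (Equiv.ofInjective i1 hi1).symm (Equiv.refl _))
  have heZ : ∀ z (hz : z ∉ Set.range i1), eZ z = Sum.inr ⟨z, hz⟩ := by
    intro z hz
    simp only [eZ, Equiv.trans_apply]
    rw [Equiv.sumCompl_symm_apply_of_neg hz]
    rfl
  refine ⟨ι, hι, b, fun x => (eZ.trans (Equiv.sumCongr (f x) (Equiv.refl _))).trans eZ.symm,
    ?_, ?_, ?_⟩
  · intro x z hz
    have hz' : z ∉ Set.range i1 := by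
      rintro ⟨y, rfl⟩
      exact (i0 y).2 hz
    simp only [Equiv.trans_apply]
    rw [heZ z hz', Equiv.symm_apply_eq, heZ z hz']
    rfl
  · have := hf []
    simp only [Kp_nil, mul_one] at this
    rw [← this]
    show P [] * P [] = 1
    rw [hP1, one_mul]
  · have e1 : (fun L => ∑ x, b x * Kp ((eZ.trans (Equiv.sumCongr (f x) (Equiv.refl _))).trans
        eZ.symm) L) = rl eZ eZ (tn (beta P) (Kp (Equiv.refl _))) := by
      funext L
      have e2 : beta P = fun L => ∑ x, b x * Kp (f x) L := funext hf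
      show _ = tens (L.map (Prod.map eZ eZ)) (beta P) (Kp (Equiv.refl _))
      rw [e2, tens_sum_left]
      refine Finset.sum_congr rfl (fun x _ => ?_)
      rw [tens_Kp, ← rl_Kp]
      rfl
    rw [e1, mem_JJ, tn_rl_right]
    refine MkS_rl u ?_ (Equiv.sumCongr (Equiv.refl X) eZ) (Equiv.sumCongr (Equiv.refl Y) eZ)
    rw [tn_assoc']
    exact MkS_rl u (MkS_tn_id u (key_beta u w P k hP hag e) _) _ _

lemma swap_mem {Q : List (Z × Z)}
    (hQ : ∀ a b : Z, a ∉ ent Q → b ∉ ent Q → a ≠ b → th ((a, b) :: Q) ∈ JJ u k e Z)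
    (τ : Z ≃ Z) (hτ : ∀ z ∈ ent Q, τ z = z) :
    rl τ (Equiv.refl Z) (th Q) - th Q ∈ JJ u k e Z := by
  have hmul : ∀ τ₁ τ₂ : Equiv.Perm Z,
      rl τ₁ (Equiv.refl Z) (th Q) - th Q ∈ JJ u k e Z →
      rl τ₂ (Equiv.refl Z) (th Q) - th Q ∈ JJ u k e Z →
      rl (τ₁ * τ₂ : Equiv.Perm Z) (Equiv.refl Z) (th Q) - th Q ∈ JJ u k e Z := by
    intro τ₁ τ₂ h1 h2
    have := Submodule.add_mem _ (JJ_rl u k e h1 τ₂ (Equiv.refl Z)) h2
    convert this using 1
    have e1 : rl (τ₁ * τ₂ : Equiv.Perm Z) (Equiv.refl Z) (th Q : Ker F Z Z)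
        = rl τ₂ (Equiv.refl Z) (rl τ₁ (Equiv.refl Z) (th Q)) := by
      rw [rl_rl]; rfl
    rw [e1]
    funext L
    show (rl τ₂ (Equiv.refl Z) (rl τ₁ (Equiv.refl Z) (th Q)) L - th Q L : F)
      = (rl τ₂ (Equiv.refl Z) (rl τ₁ (Equiv.refl Z) (th Q)) L
        - rl τ₂ (Equiv.refl Z) (th Q) L) + (rl τ₂ (Equiv.refl Z) (th Q) L - th Q L)
    ring
  have hswap : ∀ a b : Z, a ∉ ent Q → b ∉ ent Q →
      rl (Equiv.swap a b) (Equiv.refl Z) (th Q) - th Q ∈ JJ u k e Z := by
    intro a b ha hb
    by_cases hab : a = b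
    · subst hab
      rw [Equiv.swap_self]
      have : rl (Equiv.refl Z) (Equiv.refl Z) (th Q : Ker F Z Z) = th Q := rl_id _
      rw [this, sub_self]
      exact Submodule.zero_mem _
    · have := Submodule.neg_mem _ (hQ a b ha hb hab)
      convert this using 1
      funext L
      show (rl (Equiv.swap a b) (Equiv.refl Z) (th Q) L - th Q L : F)
        = -(th Q L - th Q (L.map (Prod.map (Equiv.swap a b) id)))
      rw [neg_sub]
      rfl
  have hkey : ∀ σ : Equiv.Perm {z : Z // z ∉ ent Q},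
      rl (Equiv.Perm.ofSubtype σ : Equiv.Perm Z) (Equiv.refl Z) (th Q) - th Q ∈ JJ u k e Z := by
    intro σ
    induction σ using Equiv.Perm.swap_induction_on with
    | one =>
      rw [map_one]
      have : rl (1 : Equiv.Perm Z) (Equiv.refl Z) (th Q : Ker F Z Z) = th Q := rl_id _
      rw [this, sub_self]
      exact Submodule.zero_mem _
    | swap_mul σ x y hxy ih =>
      rw [map_mul, Equiv.Perm.ofSubtype_swap_eq]
      exact hmul _ _ (hswap _ _ x.2 y.2) ih
  have hsub : ∀ z : Z, (z ∉ ent Q) ↔ (τ z ∉ ent Q) := by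
    intro z
    constructor
    · intro h h'
      have := hτ _ h'
      exact h (by rwa [τ.injective this] at h')
    · intro h h'
      rw [hτ z h'] at h
      exact h h'
  have e1 : Equiv.Perm.ofSubtype (Equiv.Perm.subtypePerm τ (p := fun z => z ∉ ent Q)
      (fun z => (hsub z).symm)) = τ :=
    Equiv.Perm.ofSubtype_subtypePerm _ (fun z hz hz' => hz (hτ z hz'))
  rw [← e1]
  exact hkey _

lemma ideal_step (hP : Real P) (hP1 : P [] = 1) (hag : Agr (k + 1) P (tn u w))
    (hZ : Fintype.card (Y ⊕ X) + 2 * (k + 1) ≤ Fintype.card Z) (j : ℕ) (hj : j ≤ k + 1) :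
    ∀ Q : List (Z × Z), (ent Q).Nodup → Q.length + j = k + 1 → th Q ∈ JJ u k e Z := by
  induction j with
  | zero =>
    intro Q hQ hlen
    rw [mem_JJ]
    refine MkS_congr u (c' := fun _ => 0) ?_ (Submodule.zero_mem _)
    intro L hL
    show tens L _ _ = 0
    rw [tens_congr L _ _ _ (fun _ => 0) (Agr.refl _ _), tens_zero_right]
    intro M hM
    exact th_zero Q hQ M (by omega)
  | succ j ih =>
    intro Q hQ hlen
    have hlenent : ∀ Q : List (Z × Z), (ent Q).length = 2 * Q.length := by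
      intro Q
      induction Q with
      | nil => rfl
      | cons q Q ih => simp [ih]; ring
    have hcard : Fintype.card (Y ⊕ X) + (ent Q).toFinset.card ≤ Fintype.card Z := by
      have h1 := List.toFinset_card_le (ent Q)
      rw [hlenent] at h1
      omega
    obtain ⟨ι, hι, b, f, hfix, hb, hmem⟩ := exists_beta u w P k e hP hP1 hag _ hcard
    have h1 : cmp (fun L => ∑ x, b x * Kp (f x) L) (th Q) ∈ JJ u k e Z :=
      JJ_cmp u k e hmem (th_real Q)
    have h2 : cmp (fun L => ∑ x, b x * Kp (f x) L) (th Q)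
        = fun L => ∑ x, b x * rl (f x) (Equiv.refl Z) (th Q) L := by
      funext L
      show comp L _ _ = _
      rw [comp_sum_left]
      exact Finset.sum_congr rfl (fun x _ => by rw [comp_Kp_left]; rfl)
    have h3 : (fun L => ∑ x, b x * (rl (f x) (Equiv.refl Z) (th Q) - th Q : Ker F Z Z) L)
        ∈ JJ u k e Z := by
      refine JJ_sum u k e _ _ (fun x => swap_mem u k e ?_ (f x) ?_)
      · intro a c ha hc hac
        refine ih (by omega) _ ?_ (by simp; omega)
        simp only [ent_cons, List.nodup_cons, List.mem_cons, not_or]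
        exact ⟨⟨hac, ha⟩, hc, hQ⟩
      · intro z hz
        exact hfix x z (by simpa using hz)
    have h4 := Submodule.sub_mem _ h1 h3
    convert h4 using 1
    rw [h2]
    funext L
    rw [Pi.sub_apply]
    simp only [Pi.sub_apply, mul_sub, Finset.sum_sub_distrib, sub_sub_cancel]
    rw [← Finset.sum_mul, hb, one_mul]

/-- The key lemma: derivatives of `u ⊕ id` lie in the module up to length `k`. -/
lemma key (hP : Real P) (hP1 : P [] = 1) (hag : Agr (k + 1) P (tn u w))
    (hZ : Fintype.card (Y ⊕ X) + 2 * (k + 1) ≤ Fintype.card Z) :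
    tn (Dv e u) (Kp (Equiv.refl Z)) ∈ MkS u k (X ⊕ Z) (Y ⊕ Z) :=
  ideal_step u w P k e hP hP1 hag hZ (k + 1) le_rfl [] (by simp) (by simp)

end ideal

end

end Pool.Agent.J6H0.Bij
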