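import Mathlib
import Pool.Agent.J6H0.Bij.Ideal

set_option autoImplicit false
set_option linter.unusedSectionVars false

/-!
Local consistency of kernels, the notion `Good k A B`, its behaviour under composition, and the
main construction.
-/

namespace Pool.Agent.J6H0.Bij

open scoped Classical

noncomputable section

variable {F : Type} [Field F]

/-- Local consistency of a kernel on lists of length at most two. -/
structure Loc {A B : Type} [Fintype A] [Fintype B] (c : Ker F A B) : Prop where
  sym : Sym c
  idem : ∀ e, c [e, e] = c [e]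
  fn : ∀ a b b', b ≠ b' → c [(a, b), (a, b')] = 0
  inj : ∀ a a' b, a ≠ a' → c [(a, b), (a', b)] = 0
  row : ∀ a, ∑ b, c [(a, b)] = c []
  col : ∀ b, ∑ a, c [(a, b)] = c []

/-- There is a family of locally consistent kernels, closed under derivatives up to length `k`,
containing one with nonzero mass. -/
def Good (F : Type) [Field F] (k : ℕ) (A B : Type) [Fintype A] [Fintype B] : Prop :=
  ∃ R : Submodule F (Ker F A B),
    (∃ r ∈ R, r [] ≠ 0) ∧
    (∀ r ∈ R, ∀ e, ∃ r' ∈ R, Agr k (Dv e r) r') ∧
    (∀ r ∈ R, Loc r)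

section loc

variable {A A' B B' C C' X Y : Type} [Fintype A] [Fintype A'] [Fintype B] [Fintype B'] [Fintype C]

lemma Loc.zero : Loc (0 : Ker F A B) where
  sym := fun _ _ _ => rfl
  idem := fun _ => rfl
  fn := fun _ _ _ _ => rfl
  inj := fun _ _ _ _ => rfl
  row := fun _ => by simp
  col := fun _ => by simp

lemma Loc.add {c c' : Ker F A B} (h : Loc c) (h' : Loc c') : Loc (c + c') where
  sym := fun L L' hL => by
    show c L + c' L = c L' + c' L'
    rw [h.sym L L' hL, h'.sym L L' hL]
  idem := fun e => by
    show c _ + c' _ = c _ + c' _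
    rw [h.idem, h'.idem]
  fn := fun a b b' hb => by
    show c _ + c' _ = 0
    rw [h.fn a b b' hb, h'.fn a b b' hb, add_zero]
  inj := fun a a' b hb => by
    show c _ + c' _ = 0
    rw [h.inj a a' b hb, h'.inj a a' b hb, add_zero]
  row := fun a => by
    show ∑ b, (c _ + c' _) = c _ + c' _
    rw [Finset.sum_add_distrib, h.row, h'.row]
  col := fun a => by
    show ∑ b, (c _ + c' _) = c _ + c' _
    rw [Finset.sum_add_distrib, h.col, h'.col]

lemma Loc.smul (t : F) {c : Ker F A B} (h : Loc c) : Loc (t • c) where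
  sym := fun L L' hL => by
    show t * c L = t * c L'
    rw [h.sym L L' hL]
  idem := fun e => by
    show t * c _ = t * c _
    rw [h.idem]
  fn := fun a b b' hb => by
    show t * c _ = 0
    rw [h.fn a b b' hb, mul_zero]
  inj := fun a a' b hb => by
    show t * c _ = 0
    rw [h.inj a a' b hb, mul_zero]
  row := fun a => by
    show ∑ b, t * c _ = t * c _
    rw [← Finset.mul_sum, h.row]
  col := fun a => by
    show ∑ b, t * c _ = t * c _
    rw [← Finset.mul_sum, h.col]

lemma Loc.span {s : Set (Ker F A B)} (h : ∀ c ∈ s, Loc c) :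
    ∀ c ∈ Submodule.span F s, Loc c := by
  intro c hc
  induction hc using Submodule.span_induction with
  | mem x hx => exact h x hx
  | zero => exact Loc.zero
  | add x y _ _ hx hy => exact hx.add hy
  | smul t x _ hx => exact hx.smul t

lemma Loc.Kp (σ : A ≃ B) : Loc (Kp σ : Ker F A B) where
  sym := Sym.Kp σ
  idem := fun e => by by_cases h : σ e.1 = e.2 <;> simp [h]
  fn := fun a b b' hb => by
    by_cases h : σ a = b
    · simp [h, hb]
    · simp [h]
  inj := fun a a' b hb => by
    by_cases h : σ a = b
    · have : σ a' ≠ b := fun h' => hb (σ.injective (h.trans h'.symm))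
      simp [this]
    · simp [h]
  row := fun a => by simp
  col := fun b => by
    simp only [Kp_cons, Kp_nil]
    rw [Finset.sum_eq_single (σ.symm b)]
    · simp
    · intro a _ ha
      rw [if_neg]
      intro h
      exact ha (by rw [← h]; simp)
    · intro h
      exact absurd (Finset.mem_univ _) h

lemma Loc.real {c : Ker F A B} (hc : Real c) : Loc c := by
  obtain ⟨ι, hι, b, f, hf⟩ := hc
  have e : c = ∑ x, b x • Bij.Kp (f x) := by
    funext L
    rw [hf]
    simp
  rw [e]
  have : ∀ x ∈ Finset.univ, b x • (Bij.Kp (f x) : Ker F A B) ∈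
      Submodule.span F (Set.range (fun x => (Bij.Kp (f x) : Ker F A B))) :=
    fun x _ => Submodule.smul_mem _ _ (Submodule.subset_span ⟨x, rfl⟩)
  refine Loc.span (s := Set.range (fun x => (Bij.Kp (f x) : Ker F A B))) ?_ _
    (Submodule.sum_mem _ this)
  rintro _ ⟨x, rfl⟩
  exact Loc.Kp _

lemma Loc.rl {c : Ker F A' B'} (hc : Loc c) (h : A ≃ A') (g : B ≃ B') : Loc (rl h g c) where
  sym := hc.sym.rl _ _
  idem := fun e => hc.idem _
  fn := fun a b b' hb => hc.fn _ _ _ (fun h' => hb (g.injective h'))
  inj := fun a a' b hb => hc.inj _ _ _ (fun h' => hb (h.injective h'))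
  row := fun a => by
    have := hc.row (h a)
    rw [← Equiv.sum_comp g] at this
    exact this
  col := fun b => by
    have := hc.col (g b)
    rw [← Equiv.sum_comp h] at this
    exact this

lemma Loc.tn {c : Ker F A B} {c' : Ker F A' B'} (h : Loc c) (h' : Loc c') : Loc (tn c c') where
  sym := h.sym.tn h'.sym
  idem := fun e => by
    rcases e with ⟨x | x, y | y⟩
    · show c [(x, y), (x, y)] * c' [] = c [(x, y)] * c' []
      rw [h.idem]
    · rfl
    · rfl
    · show c [] * c' [(x, y), (x, y)] = c [] * c' [(x, y)]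
      rw [h'.idem]
  fn := fun a b b' hb => by
    rcases a with a | a <;> rcases b with b | b <;> rcases b' with b' | b'
    · show c [(a, b), (a, b')] * c' [] = 0
      rw [h.fn a b b' (fun h => hb (by rw [h])), zero_mul]
    · rfl
    · rfl
    · rfl
    · rfl
    · rfl
    · rfl
    · show c [] * c' [(a, b), (a, b')] = 0
      rw [h'.fn a b b' (fun h => hb (by rw [h])), mul_zero]
  inj := fun a a' b hb => by
    rcases b with b | b <;> rcases a with a | a <;> rcases a' with a' | a'
    · show c [(a, b), (a', b)] * c' [] = 0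
      rw [h.inj a a' b (fun h => hb (by rw [h])), zero_mul]
    · rfl
    · rfl
    · rfl
    · rfl
    · rfl
    · rfl
    · show c [] * c' [(a, b), (a', b)] = 0
      rw [h'.inj a a' b (fun h => hb (by rw [h])), mul_zero]
  row := fun a => by
    rcases a with a | a
    · rw [Fintype.sum_sum_type]
      show (∑ b, c [(a, b)] * c' []) + (∑ b : B', (0 : F)) = c [] * c' []
      rw [← Finset.sum_mul, h.row, Finset.sum_const_zero, add_zero]
    · rw [Fintype.sum_sum_type]
      show (∑ b : B, (0 : F)) + (∑ b, c [] * c' [(a, b)]) = c [] * c' []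
      rw [← Finset.mul_sum, h'.row, Finset.sum_const_zero, zero_add]
  col := fun a => by
    rcases a with a | a
    · rw [Fintype.sum_sum_type]
      show (∑ b, c [(b, a)] * c' []) + (∑ b : A', (0 : F)) = c [] * c' []
      rw [← Finset.sum_mul, h.col, Finset.sum_const_zero, add_zero]
    · rw [Fintype.sum_sum_type]
      show (∑ b : A, (0 : F)) + (∑ b, c [] * c' [(b, a)]) = c [] * c' []
      rw [← Finset.mul_sum, h'.col, Finset.sum_const_zero, zero_add]

lemma comp_one {A B C : Type} [Fintype B] (a : A) (z : C) (c : Ker F A B) (c' : Ker F B C) :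
    comp [(a, z)] c c' = ∑ b, c [(a, b)] * c' [(b, z)] := rfl

lemma comp_two {A B C : Type} [Fintype B] (a a' : A) (z z' : C) (c : Ker F A B)
    (c' : Ker F B C) :
    comp [(a, z), (a', z')] c c'
      = ∑ b, ∑ b', c [(a, b), (a', b')] * c' [(b, z), (b', z')] := rfl

lemma Loc.cmp {c : Ker F A B} {c' : Ker F B C} (h : Loc c) (h' : Loc c') : Loc (cmp c c') where
  sym := h.sym.cmp h'.sym
  idem := fun e => by
    obtain ⟨a, z⟩ := e
    show comp [(a, z), (a, z)] c c' = comp [(a, z)] c c'
    rw [comp_two, comp_one]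
    refine Finset.sum_congr rfl (fun b _ => ?_)
    rw [Finset.sum_eq_single b]
    · rw [h.idem, h'.idem]
    · intro b' _ hb
      rw [h.fn a b b' (Ne.symm hb), zero_mul]
    · intro h
      exact absurd (Finset.mem_univ _) h
  fn := fun a z z' hz => by
    show comp [(a, z), (a, z')] c c' = 0
    rw [comp_two]
    refine Finset.sum_eq_zero (fun b _ => Finset.sum_eq_zero (fun b' _ => ?_))
    by_cases hb : b = b'
    · subst hb
      rw [h'.fn b z z' hz, mul_zero]
    · rw [h.fn a b b' hb, zero_mul]
  inj := fun a a' z ha => by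
    show comp [(a, z), (a', z)] c c' = 0
    rw [comp_two]
    refine Finset.sum_eq_zero (fun b _ => Finset.sum_eq_zero (fun b' _ => ?_))
    by_cases hb : b = b'
    · subst hb
      rw [h.inj a a' b ha, zero_mul]
    · rw [h'.inj b b' z hb, mul_zero]
  row := fun a => by
    show ∑ z, comp [(a, z)] c c' = c [] * c' []
    simp only [comp_one]
    rw [Finset.sum_comm]
    simp only [← Finset.mul_sum, h'.row]
    rw [← Finset.sum_mul, h.row]
  col := fun z => by
    show ∑ a, comp [(a, z)] c c' = c [] * c' []
    simp only [comp_one]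
    rw [Finset.sum_comm]
    simp only [← Finset.sum_mul, h.col]
    rw [← Finset.mul_sum, h'.col]

end loc

/-! ### Composition of good pairs -/

lemma Dv_cmp {A B C : Type} [Fintype B] (c : Ker F A B) (c' : Ker F B C) (e : A × C) :
    Dv e (cmp c c') = ∑ b : B, cmp (Dv (e.1, b) c) (Dv (b, e.2) c') := by
  funext L
  simp [cmp, comp_cons]

lemma Good.comp {k : ℕ} {A B C : Type} [Fintype A] [Fintype B] [Fintype C]
    (h : Good F k A B) (h' : Good F k B C) : Good F k A C := by
  obtain ⟨R, ⟨r, hr, hr0⟩, hD, hl⟩ := h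
  obtain ⟨R', ⟨r', hr', hr0'⟩, hD', hl'⟩ := h'
  refine ⟨Submodule.span F {c | ∃ x ∈ R, ∃ y ∈ R', c = cmp x y}, ?_, ?_, ?_⟩
  · exact ⟨cmp r r', Submodule.subset_span ⟨r, hr, r', hr', rfl⟩, mul_ne_zero hr0 hr0'⟩
  · intro c hc e
    induction hc using Submodule.span_induction with
    | mem c hc =>
      obtain ⟨x, hx, y, hy, rfl⟩ := hc
      choose f hf hfa using fun b => hD x hx (e.1, b)
      choose g hg hga using fun b => hD' y hy (b, e.2)
      refine ⟨∑ b, cmp (f b) (g b), Submodule.sum_mem _ (fun b _ =>
        Submodule.subset_span ⟨_, hf b, _, hg b, rfl⟩), ?_⟩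
      rw [Dv_cmp]
      intro L hL
      rw [Finset.sum_apply, Finset.sum_apply]
      exact Finset.sum_congr rfl (fun b _ => (hfa b).cmp (hga b) L hL)
    | zero => exact ⟨0, Submodule.zero_mem _, fun _ _ => rfl⟩
    | add x y _ _ hx hy =>
      obtain ⟨x', hx', hx''⟩ := hx
      obtain ⟨y', hy', hy''⟩ := hy
      exact ⟨x' + y', Submodule.add_mem _ hx' hy', fun L hL => by
        show Dv e x L + Dv e y L = x' L + y' L
        rw [hx'' L hL, hy'' L hL]⟩
    | smul t x _ hx =>
      obtain ⟨x', hx', hx''⟩ := hx
      exact ⟨t • x', Submodule.smul_mem _ _ hx', fun L hL => by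
        show t * Dv e x L = t * x' L
        rw [hx'' L hL]⟩
  · refine Loc.span ?_
    rintro c ⟨x, hx, y, hy, rfl⟩
    exact (hl x hx).cmp (hl' y hy)

/-! ### The main construction -/

section main

variable {X Y : Type} [Fintype X] [Fintype Y] (P : Ker F (X ⊕ Y) (Y ⊕ X)) (k : ℕ)

/-- The part of `P` from `X` to `Y`. -/
def uu : Ker F X Y := rl Sum.inl Sum.inl P

/-- The part of `P` from `Y` to `X`. -/
def ww : Ker F Y X := rl Sum.inr Sum.inr P

lemma uu_loc (hP : Real P) (hag : Agr (k + 1) P (tn (uu P) (ww P))) : Loc (uu P) := by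
  have hl : Loc P := Loc.real hP
  refine ⟨hl.sym.rl _ _, fun e => hl.idem _, fun a b b' hb => hl.fn _ _ _ (fun h => hb ?_),
    fun a a' b ha => hl.inj _ _ _ (fun h => ha ?_), fun a => ?_, fun b => ?_⟩
  · exact Sum.inl_injective h
  · exact Sum.inl_injective h
  · have := hl.row (Sum.inl a)
    rw [Fintype.sum_sum_type] at this
    have h0 : ∀ b : X, P [(Sum.inl a, Sum.inr b)] = 0 := fun b =>
      hag [(Sum.inl a, Sum.inr b)] (by simp)
    simp only [h0, Finset.sum_const_zero, add_zero] at this
    exact this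
  · have := hl.col (Sum.inl b)
    rw [Fintype.sum_sum_type] at this
    have h0 : ∀ a : Y, P [(Sum.inr a, Sum.inl b)] = 0 := fun a =>
      hag [(Sum.inr a, Sum.inl b)] (by simp)
    simp only [h0, Finset.sum_const_zero, add_zero] at this
    exact this

/-- The derivative as a linear map. -/
def DvL {A B : Type} (e : A × B) : Ker F A B →ₗ[F] Ker F A B where
  toFun := Dv e
  map_add' _ _ := rfl
  map_smul' _ _ := rfl

theorem good_base (hP : Real P) (hP1 : P [] = 1) (hag : Agr (k + 1) P (tn (uu P) (ww P)))
    (A B : Type) [Fintype A] [Fintype B] (z : ℕ)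
    (hA : Fintype.card A = Fintype.card X + z) (hB : Fintype.card B = Fintype.card Y + z)
    (hz : Fintype.card (Y ⊕ X) + 2 * (k + 1) ≤ z) : Good F k A B := by
  refine ⟨RU (uu P) A B, ?_, ?_, ?_⟩
  · have hA' : Fintype.card A = Fintype.card (X ⊕ Fin z) := by simp [hA]
    have hB' : Fintype.card B = Fintype.card (Y ⊕ Fin z) := by simp [hB]
    refine ⟨_, Submodule.subset_span ⟨Fin z, Fintype.equivOfCardEq hA',
      Fintype.equivOfCardEq hB', rfl⟩, ?_⟩
    show P [] * 1 ≠ 0
    rw [hP1, one_mul]
    exact one_ne_zero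
  · intro r hr e
    have : RU (uu P) A B ≤ (MkS (uu P) k A B).comap (DvL e) := by
      refine Submodule.span_le.mpr ?_
      rintro c ⟨Z, h, g, rfl⟩
      show Dv e (rl h g (tn (uu P) (Kp (Equiv.refl Z)))) ∈ MkS (uu P) k A B
      rw [Dv_rl]
      refine MkS_rl _ ?_ _ _
      have hfin : Finite Z := Finite.of_injective (fun z => h.symm (Sum.inr z))
        (fun a b hab => Sum.inr_injective (h.symm.injective hab))
      have hfi : Fintype Z := Fintype.ofFinite Z
      have hcz : Fintype.card Z = z := by
        have h1 := Fintype.card_congr h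
        rw [Fintype.card_sum] at h1
        omega
      rcases h e.1 with x | x <;> rcases g e.2 with y | y
      · exact key (uu P) (ww P) P k (x, y) hP hP1 hag (by omega)
      · exact Submodule.zero_mem _
      · exact Submodule.zero_mem _
      · show tn (uu P) (Dv (x, y) (Kp (Equiv.refl Z))) ∈ _
        rw [Dv_Kp]
        by_cases hxy : Equiv.refl Z x = y
        · rw [if_pos hxy]
          refine MkS_of_RU _ (Submodule.subset_span ⟨Z, Equiv.refl _, Equiv.refl _, ?_⟩)
          exact (rl_id _).symm
        · rw [if_neg hxy]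
          have : (tn (uu P) (fun _ => (0 : F)) : Ker F (X ⊕ Z) (Y ⊕ Z)) = 0 := by
            funext L
            exact tens_zero_right L _
          rw [this]
          exact Submodule.zero_mem _
    exact this hr
  · refine Loc.span ?_
    rintro c ⟨Z, h, g, rfl⟩
    have hfin : Finite Z := Finite.of_injective (fun z => h.symm (Sum.inr z))
      (fun a b hab => Sum.inr_injective (h.symm.injective hab))
    have hfi : Fintype Z := Fintype.ofFinite Z
    exact ((uu_loc P k hP hag).tn (Loc.Kp _)).rl h g

theorem good_main (hP : Real P) (hP1 : P [] = 1) (hag : Agr (k + 1) P (tn (uu P) (ww P)))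
    (q : ℕ) (hq : Fintype.card X = Fintype.card Y + q) (n : ℕ)
    (hn : Fintype.card Y + (Fintype.card (Y ⊕ X) + 2 * (k + 1)) ≤ n) (a : ℕ) :
    Good F k (Fin (n + (a + 1) * q)) (Fin n) := by
  have hbase : ∀ m, n ≤ m → Good F k (Fin (m + q)) (Fin m) := by
    intro m hm
    refine good_base P k hP hP1 hag _ _ (m - Fintype.card Y) ?_ ?_ ?_
    · rw [Fintype.card_fin]; omega
    · rw [Fintype.card_fin]; omega
    · omega
  induction a with
  | zero =>
    have e : n + (0 + 1) * q = n + q := by ring
    rw [e]
    exact hbase n le_rfl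
  | succ a ih =>
    have h1 := hbase (n + (a + 1) * q) (Nat.le_add_right _ _)
    have e : n + (a + 1) * q + q = n + (a + 1 + 1) * q := by ring
    rw [e] at h1
    exact h1.comp ih

end main

end

end Pool.Agent.J6H0.Bij
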