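import Mathlib
import Pool.Agent.J6H0.Bij.Good

set_option autoImplicit false
set_option linter.unusedSectionVars false

/-!
Construction of real kernels that exchange the two colour classes of a set with unequal
colour classes, up to a given length, in characteristic `p`.
-/

namespace Pool.Agent.J6H0.Bij

open scoped Classical

noncomputable section

variable {F : Type} [CommRing F]

section tc

variable {A B A' B' : Type}

/-- Coloured product of two kernels, evaluated on a list. -/
def tcL (α : A → Bool) (β : B → Bool) : List (A × B) → Ker F A B → Ker F A B → F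
  | [], u, w => u [] * w []
  | e :: L, u, w =>
    if α e.1 = β e.2 then
      (if α e.1 then tcL α β L u (Dv e w) else tcL α β L (Dv e u) w)
    else 0

/-- Coloured product of two kernels. -/
def tc (α : A → Bool) (β : B → Bool) (u w : Ker F A B) : Ker F A B := fun L => tcL α β L u w

lemma tcL_nil (α : A → Bool) (β : B → Bool) (u w : Ker F A B) :
    tcL α β [] u w = u [] * w [] := rfl

lemma tcL_cons (α : A → Bool) (β : B → Bool) (e : A × B) (L : List (A × B)) (u w : Ker F A B) :
    tcL α β (e :: L) u w = if α e.1 = β e.2 then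
      (if α e.1 then tcL α β L u (Dv e w) else tcL α β L (Dv e u) w) else 0 := rfl

lemma tcL_eq (α : A → Bool) (β : B → Bool) (L : List (A × B)) (u w : Ker F A B) :
    tcL α β L u w = if ∀ e ∈ L, α e.1 = β e.2 then
      u (L.filter (fun e => !α e.1)) * w (L.filter (fun e => α e.1)) else 0 := by
  induction L generalizing u w with
  | nil => simp [tcL_nil]
  | cons e L ih =>
    rw [tcL_cons, ih, ih]
    by_cases h : α e.1 = β e.2
    · have hc : (∀ e' ∈ e :: L, α e'.1 = β e'.2) ↔ (∀ e' ∈ L, α e'.1 = β e'.2) := by
        rw [List.forall_mem_cons]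
        exact ⟨fun h' => h'.2, fun h' => ⟨h, h'⟩⟩
      rw [if_pos h]
      simp only [hc]
      by_cases h1 : α e.1 = true
      · have e1 : (e :: L).filter (fun e => !α e.1) = L.filter (fun e => !α e.1) :=
          List.filter_cons_of_neg (by simp [h1])
        have e2 : (e :: L).filter (fun e => α e.1) = e :: L.filter (fun e => α e.1) :=
          List.filter_cons_of_pos h1
        rw [if_pos h1, e1, e2]
        rfl
      · have e1 : (e :: L).filter (fun e => !α e.1) = e :: L.filter (fun e => !α e.1) :=
          List.filter_cons_of_pos (by simpa using h1)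
        have e2 : (e :: L).filter (fun e => α e.1) = L.filter (fun e => α e.1) :=
          List.filter_cons_of_neg h1
        rw [if_neg h1, e1, e2]
        rfl
    · rw [if_neg h, if_neg]
      intro h'
      exact h (h' e List.mem_cons_self)

lemma tc_congr {k : ℕ} (α : A → Bool) (β : B → Bool) {u u' w w' : Ker F A B}
    (h : Agr k u u') (h' : Agr k w w') : Agr k (tc α β u w) (tc α β u' w') := by
  intro L hL
  show tcL _ _ _ _ _ = tcL _ _ _ _ _
  rw [tcL_eq, tcL_eq, h _ ((List.length_filter_le _ _).trans hL),
    h' _ ((List.length_filter_le _ _).trans hL)]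

lemma rl_tc (α : A' → Bool) (β : B' → Bool) (h : A → A') (g : B → B') (u w : Ker F A' B') :
    rl h g (tc α β u w) = tc (α ∘ h) (β ∘ g) (rl h g u) (rl h g w) := by
  funext L
  show tcL α β (L.map (Prod.map h g)) u w = tcL (α ∘ h) (β ∘ g) L (rl h g u) (rl h g w)
  induction L generalizing u w with
  | nil => rfl
  | cons e L ih =>
    rw [List.map_cons, tcL_cons, tcL_cons, ih, ih]
    rfl

/-- The shift that only moves elements of colour `true`. -/
def shf (α : A → Bool) (t : A ≃ A) (ht : ∀ a, α (t a) = α a) : A ≃ A where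
  toFun x := if α x then t x else x
  invFun x := if α x then t.symm x else x
  left_inv x := by
    by_cases h : α x = true
    · simp [h, ht]
    · simp [h]
  right_inv x := by
    have ht' : α (t.symm x) = α x := by
      rw [← ht (t.symm x), Equiv.apply_symm_apply]
    by_cases h : α x = true
    · simp [h, ht']
    · simp [h]

lemma shf_tc (α : A → Bool) (β : B → Bool) (t : A ≃ A) (ht : ∀ a, α (t a) = α a)
    (s : B ≃ B) (hs : ∀ a, β (s a) = β a) (u w : Ker F A B) :
    rl (shf α t ht) (shf β s hs) (tc α β u w) = tc α β u (rl t s w) := by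
  funext L
  show tcL α β (L.map (Prod.map (shf α t ht) (shf β s hs))) u w = tcL α β L u (rl t s w)
  induction L generalizing u w with
  | nil => rfl
  | cons e L ih =>
    obtain ⟨x, y⟩ := e
    rw [List.map_cons, tcL_cons, tcL_cons, ih, ih]
    by_cases h1 : α x = true <;> by_cases h2 : β y = true
    · simp only [Prod.map_apply, shf, Equiv.coe_fn_mk, h1, h2, ht, hs, if_true]
      rfl
    · simp [shf, h1, h2, ht]
    · simp [shf, h1, h2, hs]
    · simp [shf, h1, h2]

lemma tcL_sum_left {ι : Type} (s : Finset ι) (α : A → Bool) (β : B → Bool) (L : List (A × B))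
    (u : ι → Ker F A B) (w : Ker F A B) :
    tcL α β L (fun L' => ∑ x ∈ s, u x L') w = ∑ x ∈ s, tcL α β L (u x) w := by
  simp only [tcL_eq]
  split_ifs
  · rw [Finset.sum_mul]
  · simp

lemma tcL_sum_right {ι : Type} (s : Finset ι) (α : A → Bool) (β : B → Bool) (L : List (A × B))
    (u : Ker F A B) (w : ι → Ker F A B) :
    tcL α β L u (fun L' => ∑ x ∈ s, w x L') = ∑ x ∈ s, tcL α β L u (w x) := by
  simp only [tcL_eq]
  split_ifs
  · rw [Finset.mul_sum]
  · simp

lemma Kp_tc (γ : A → Bool) :
    (Kp (Equiv.refl A) : Ker F A A) = tc γ γ (Kp (Equiv.refl A)) (Kp (Equiv.refl A)) := by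
  funext L
  show _ = tcL γ γ L _ _
  rw [tcL_eq, Kp_eq, Kp_eq, Kp_eq]
  by_cases h : ∀ e ∈ L, (Equiv.refl A) e.1 = e.2
  · have h0 : ∀ e ∈ L, γ e.1 = γ e.2 := fun e he => by
      have := h e he
      simp only [Equiv.refl_apply] at this
      rw [this]
    rw [if_pos h, if_pos h0, if_pos, if_pos, one_mul]
    · intro e he
      exact h e (List.mem_of_mem_filter he)
    · intro e he
      exact h e (List.mem_of_mem_filter he)
  · rw [if_neg h]
    split_ifs with h1 h2 h3
    · exfalso
      apply h
      intro e he
      by_cases hg : γ e.1 = true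
      · exact h3 e (List.mem_filter.mpr ⟨he, by simpa using hg⟩)
      · exact h2 e (List.mem_filter.mpr ⟨he, by simpa using hg⟩)
    · simp
    · simp
    · simp
    · rfl

end tc

section ti

variable {J A B : Type} [Fintype J]

/-- The edges of `L` with source index `j`. -/
def part (j : J) (L : List ((J × A) × (J × B))) : List (A × B) :=
  L.filterMap (fun e => if e.1.1 = j then some (e.1.2, e.2.2) else none)

lemma mem_part {j : J} {L : List ((J × A) × (J × B))} {x : A × B} :
    x ∈ part j L ↔ ∃ i, ((j, x.1), (i, x.2)) ∈ L := by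
  unfold part
  rw [List.mem_filterMap]
  constructor
  · rintro ⟨⟨⟨a, b⟩, ⟨c, d⟩⟩, he, h⟩
    dsimp only at h
    by_cases ha : a = j
    · rw [if_pos ha] at h
      obtain rfl := Option.some.inj h
      subst ha
      exact ⟨c, he⟩
    · rw [if_neg ha] at h
      exact absurd h (by simp)
  · rintro ⟨i, hi⟩
    exact ⟨_, hi, by simp⟩

lemma part_length_le (j : J) (L : List ((J × A) × (J × B))) : (part j L).length ≤ L.length :=
  List.length_filterMap_le _ _

/-- Product of kernels over an index type. -/
def ti (c : J → Ker F A B) : Ker F (J × A) (J × B) := fun L =>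
  if ∀ e ∈ L, e.1.1 = e.2.1 then ∏ j, c j (part j L) else 0

lemma ti_nil (c : J → Ker F A B) : ti c [] = ∏ j, c j [] := by
  simp [ti, part]

lemma Kp_ti (σ : J → (A ≃ B)) (L : List ((J × A) × (J × B))) :
    (Kp (Equiv.prodCongrRight σ) L : F) = ti (fun j => Kp (σ j)) L := by
  rw [Kp_eq]
  unfold ti
  by_cases h : ∀ e ∈ L, (Equiv.prodCongrRight σ) e.1 = e.2
  · have h1 : ∀ e ∈ L, e.1.1 = e.2.1 := fun e he => by
      have := h e he
      rw [← this]; rfl
    rw [if_pos h, if_pos h1, Finset.prod_eq_one]
    intro j _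
    show Kp (σ j) (part j L) = 1
    rw [Kp_eq, if_pos]
    intro x hx
    obtain ⟨i, hi⟩ := mem_part.mp hx
    have := h _ hi
    exact congrArg Prod.snd this
  · rw [if_neg h]
    split_ifs with h1
    · symm
      push Not at h
      obtain ⟨e, he, hne⟩ := h
      refine Finset.prod_eq_zero (Finset.mem_univ e.1.1) ?_
      show Kp (σ e.1.1) (part e.1.1 L) = 0
      rw [Kp_eq, if_neg]
      intro h2
      have h3 : (e.1.2, e.2.2) ∈ part e.1.1 L := mem_part.mpr ⟨e.2.1, he⟩
      have h4 := h2 _ h3
      apply hne
      exact Prod.ext (h1 e he) h4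
    · rfl

lemma Real.ti {c : J → Ker F A B} (hc : ∀ j, Real (c j)) : Real (ti c) := by
  choose ι hι b f hf using hc
  refine ⟨∀ j, ι j, inferInstance, fun x => ∏ j, b j (x j),
    fun x => Equiv.prodCongrRight (fun j => f j (x j)), fun L => ?_⟩
  simp only [Kp_ti]
  unfold Bij.ti
  split_ifs with h
  · simp only [hf]
    rw [Finset.prod_univ_sum, Fintype.piFinset_univ]
    exact Finset.sum_congr rfl (fun x _ => Finset.prod_mul_distrib)
  · simp

lemma part_filter (α : J → A → Bool) (j : J) (L : List ((J × A) × (J × B))) (s : Bool → Bool) :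
    part j (L.filter (fun e => s (α e.1.1 e.1.2))) = (part j L).filter (fun e => s (α j e.1)) := by
  unfold part
  rw [List.filterMap_filter, List.filter_filterMap]
  congr 1
  funext e
  by_cases h : e.1.1 = j
  · subst h
    simp [Option.filter]
  · simp [h]

lemma ti_tc (α : J → A → Bool) (β : J → B → Bool) (u w : J → Ker F A B) :
    ti (fun j => tc (α j) (β j) (u j) (w j))
      = tc (fun x => α x.1 x.2) (fun y => β y.1 y.2) (ti u) (ti w) := by
  funext L
  show Bij.ti _ L = tcL _ _ L _ _
  rw [tcL_eq]
  by_cases h1 : ∀ e ∈ L, e.1.1 = e.2.1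
  · have hf : ∀ (s : Bool → Bool), ∀ e ∈ L.filter (fun e => s (α e.1.1 e.1.2)), e.1.1 = e.2.1 :=
      fun s e he => h1 e (List.mem_of_mem_filter he)
    by_cases h2 : ∀ e ∈ L, α e.1.1 e.1.2 = β e.2.1 e.2.2
    · rw [if_pos h2]
      have e1 := hf (fun b => !b)
      have e2 := hf (fun b => b)
      unfold Bij.ti
      rw [if_pos h1, if_pos e1, if_pos e2, ← Finset.prod_mul_distrib]
      refine Finset.prod_congr rfl (fun j _ => ?_)
      show tcL _ _ _ _ _ = _
      rw [tcL_eq, if_pos]
      · rw [← part_filter α j L (fun b => !b), ← part_filter α j L (fun b => b)]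
      · intro x hx
        obtain ⟨i, hi⟩ := mem_part.mp hx
        have h3 := h1 _ hi
        have h4 := h2 _ hi
        simp only at h3 h4
        rw [h4, h3]
    · rw [if_neg h2]
      unfold Bij.ti
      rw [if_pos h1]
      push Not at h2
      obtain ⟨e, he, hne⟩ := h2
      refine Finset.prod_eq_zero (Finset.mem_univ e.1.1) ?_
      show tcL _ _ _ _ _ = _
      rw [tcL_eq, if_neg]
      intro h3
      have h4 := h3 (e.1.2, e.2.2) (mem_part.mpr ⟨e.2.1, he⟩)
      apply hne
      rw [← h1 e he]
      exact h4
  · have e0 : Bij.ti (fun j => tc (α j) (β j) (u j) (w j)) L = 0 := if_neg h1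
    rw [e0]
    split_ifs with h2
    · push Not at h1
      obtain ⟨e, he, hne⟩ := h1
      symm
      by_cases hc : α e.1.1 e.1.2 = true
      · have : Bij.ti w (L.filter (fun e => α e.1.1 e.1.2)) = 0 := by
          refine if_neg (fun h => hne (h e (List.mem_filter.mpr ⟨he, by simpa using hc⟩)))
        rw [this, mul_zero]
      · have : Bij.ti u (L.filter (fun e => !α e.1.1 e.1.2)) = 0 := by
          refine if_neg (fun h => hne (h e (List.mem_filter.mpr ⟨he, by simpa using hc⟩)))
        rw [this, zero_mul]
    · rfl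

end ti

end

end Pool.Agent.J6H0.Bij
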