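import Mathlib
import Pool.Agent.J6H0.Bij.Build

set_option autoImplicit false
set_option linter.unusedSectionVars false

/-!
The induction step of the construction.
-/

namespace Pool.Agent.J6H0.Bij

open scoped Classical

noncomputable section

variable {F : Type} [CommRing F]

section step

variable {I N : Type} [Fintype I] [Fintype N]

/-- The identity at the indices `some i` and `none`, and `c` elsewhere. -/
def Si (i : I) (c : Ker F N N) : Option I → Ker F N N := fun j =>
  if j = some i ∨ j = none then Kp (Equiv.refl N) else c

/-- The exchange of the indices `some i` and `none`. -/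
def sw (N : Type) (i : I) : (Option I × N) ≃ (Option I × N) :=
  Equiv.prodCongr (Equiv.swap (some i) none) (Equiv.refl N)

/-- The basic operation. -/
def Ti (i : I) (c : Ker F N N) : Ker F (Option I × N) (Option I × N) :=
  rl (Equiv.refl _) (sw N i) (ti (Si i c))

lemma Si_real (i : I) {c : Ker F N N} (hc : Real c) (j : Option I) : Real (Si i c j) := by
  unfold Si
  split_ifs
  · exact Real.Kp _
  · exact hc

lemma Ti_real (i : I) {c : Ker F N N} (hc : Real c) : Real (Ti i c) :=
  (Real.ti (Si_real i hc)).rl _ _

lemma Ti_nil (i : I) {c : Ker F N N} (hc : c [] = 1) : Ti i c [] = 1 := by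
  show ti (Si i c) [] = 1
  rw [ti_nil]
  refine Finset.prod_eq_one (fun j _ => ?_)
  unfold Si
  split_ifs
  · rfl
  · exact hc

lemma part_map (i : I) (j : Option I) (L : List ((Option I × N) × (Option I × N))) :
    part j (L.map (Prod.map (Equiv.refl _) (sw N i))) = part j L := by
  unfold part
  rw [List.filterMap_map]
  rfl

lemma Ti_eq (i : I) (c : Ker F N N) (L : List ((Option I × N) × (Option I × N))) :
    Ti i c L = if ∀ e ∈ L, e.1.1 = Equiv.swap (some i) none e.2.1 then
      ∏ j, Si i c j (part j L) else 0 := by
  show ti (Si i c) (L.map (Prod.map (Equiv.refl _) (sw N i))) = _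
  unfold ti
  simp only [part_map]
  have : (∀ e ∈ L.map (Prod.map (Equiv.refl (Option I × N)) (sw N i)), e.1.1 = e.2.1) ↔
      (∀ e ∈ L, e.1.1 = Equiv.swap (some i) none e.2.1) := by
    constructor
    · intro h e he
      exact h _ (List.mem_map_of_mem he)
    · intro h e he
      obtain ⟨e', he', rfl⟩ := List.mem_map.mp he
      exact h e' he'
  simp only [this]

lemma part_nil_of {j j' : Option I} (hj : j ≠ j') (L : List ((Option I × N) × (Option I × N)))
    (h : L.length ≤ (part j L).length) : part j' L = [] := by
  by_contra hne
  have hall : ∀ e ∈ L, e.1.1 = j := by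
    have : (L.filter (fun e => decide (e.1.1 = j))).length = (part j L).length := by
      induction L with
      | nil => rfl
      | cons e L ih =>
        clear ih h hne
        induction (e :: L) with
        | nil => rfl
        | cons e L ih =>
          by_cases he : e.1.1 = j
          · simp [part, he] at ih ⊢
            exact ih
          · simp [part, he] at ih ⊢
            exact ih
    have h2 : (L.filter (fun e => decide (e.1.1 = j))).length = L.length :=
      le_antisymm (List.length_filter_le _ _) (by omega)
    have h3 := List.length_filter_eq_length_iff.mp h2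
    intro e he
    simpa using h3 e he
  obtain ⟨x, hx⟩ := List.exists_mem_of_ne_nil _ hne
  obtain ⟨i, hi⟩ := mem_part.mp hx
  exact hj (hall _ hi).symm

/-- Cancellation: one more step of agreement after summing over all indices. -/
lemma sum_Ti_agr (k : ℕ) {c c' : Ker F N N} (h : Agr k c c') (hc : c [] = 1) (hc' : c' [] = 1)
    (hI : (Fintype.card I : F) = 1) :
    Agr (k + 1) (fun L => ∑ i : I, Ti i c L) (fun L => ∑ i : I, Ti i c' L) := by
  intro L hL
  by_cases hex : ∃ j0 : Option I, k + 1 ≤ (part j0 L).length
  · obtain ⟨j0, hj0⟩ := hex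
    have hlen : L.length ≤ (part j0 L).length := by omega
    have hnil : ∀ j, j ≠ j0 → part j L = [] := fun j hj => part_nil_of hj.symm L hlen
    have hone : ∀ (i : I) (d : Ker F N N), d [] = 1 → ∀ j, j ≠ j0 → Si i d j (part j L) = 1 := by
      intro i d hd j hj
      rw [hnil j hj]
      unfold Si
      split_ifs
      · rfl
      · exact hd
    have hprod : ∀ (i : I) (d : Ker F N N), d [] = 1 →
        ∏ j, Si i d j (part j L) = Si i d j0 (part j0 L) := by
      intro i d hd
      exact Finset.prod_eq_single j0 (fun j _ hj => hone i d hd j hj)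
        (fun h => absurd (Finset.mem_univ _) h)
    rcases j0 with _ | i0
    · refine Finset.sum_congr rfl (fun i _ => ?_)
      rw [Ti_eq, Ti_eq, hprod i c hc, hprod i c' hc']
      simp [Si]
    · have hall : ∀ e ∈ L, e.1.1 = some i0 := by
        intro e he
        by_contra hne
        have h1 : (e.1.2, e.2.2) ∈ part e.1.1 L := mem_part.mpr ⟨e.2.1, he⟩
        rw [hnil _ hne] at h1
        exact absurd h1 (by simp)
      have hval : ∀ (d : Ker F N N), d [] = 1 → ∀ i, i ≠ i0 →
          Ti i d L = if ∀ e ∈ L, e.2.1 = some i0 then d (part (some i0) L) else 0 := by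
        intro d hd i hi
        rw [Ti_eq, hprod i d hd]
        have e1 : Si i d (some i0) = d := by
          unfold Si
          rw [if_neg]
          rintro (h | h)
          · exact hi (Option.some.inj h).symm
          · exact absurd h (by simp)
        rw [e1]
        have e2 : (∀ e ∈ L, e.1.1 = Equiv.swap (some i) none e.2.1) ↔
            (∀ e ∈ L, e.2.1 = some i0) := by
          have hs : Equiv.swap (some i) none (some i0) = some i0 :=
            Equiv.swap_apply_of_ne_of_ne (fun h => hi (Option.some.inj h).symm) (by simp)
          constructor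
          · intro h e he
            have h1 := h e he
            rw [hall e he, ← hs] at h1
            exact ((Equiv.swap (some i) none).injective h1).symm
          · intro h e he
            rw [hall e he, h e he, hs]
        simp only [e2]
      have hsum : ∀ (d : Ker F N N), d [] = 1 → ∑ i, Ti i d L = Ti i0 d L := by
        intro d hd
        rw [← Finset.add_sum_erase _ _ (Finset.mem_univ i0)]
        rw [Finset.sum_congr rfl (fun i hi => hval d hd i (Finset.ne_of_mem_erase hi))]
        rw [Finset.sum_const, Finset.card_erase_of_mem (Finset.mem_univ _), Finset.card_univ]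
        have hpos : 1 ≤ Fintype.card I := Fintype.card_pos_iff.mpr ⟨i0⟩
        have : ((Fintype.card I - 1 : ℕ) : F) = 0 := by
          rw [Nat.cast_sub hpos, hI]
          simp
        rw [nsmul_eq_mul, this, zero_mul, add_zero]
      show ∑ i, Ti i c L = ∑ i, Ti i c' L
      rw [hsum c hc, hsum c' hc', Ti_eq, Ti_eq, hprod i0 c hc, hprod i0 c' hc']
      simp [Si]
  · push Not at hex
    refine Finset.sum_congr rfl (fun i _ => ?_)
    rw [Ti_eq, Ti_eq]
    have : ∀ j, Si i c j (part j L) = Si i c' j (part j L) := by
      intro j
      unfold Si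
      split_ifs
      · rfl
      · exact h _ (by have := hex j; omega)
    simp only [this]

/-- The colouring of `Option I × N`. -/
def par' (par : N → Bool) : Option I × N → Bool := fun x =>
  match x.1 with
  | none => !par x.2
  | some _ => par x.2

lemma Ti_tc (par : N → Bool) (i : I) (u w : Ker F N N) :
    Ti i (tc par (fun x => !par x) u w)
      = tc (par' par) (fun x => !par' par x) (Ti i u) (Ti i w) := by
  have h1 : Si i (tc par (fun x => !par x) u w) = fun j =>
      tc (fun n => par' par (j, n)) (fun n => !par' par (Equiv.swap (some i) none j, n))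
        (Si i u j) (Si i w j) := by
    funext j
    unfold Si
    by_cases hj : j = some i ∨ j = none
    · rw [if_pos hj, if_pos hj, if_pos hj]
      have : (fun n => !par' par (Equiv.swap (some i) none j, n))
          = (fun n => par' (I := I) par (j, n)) := by
        funext n
        rcases hj with h | h
        · subst h; simp [par']
        · subst h; simp [par']
      rw [this]
      exact Kp_tc _
    · rw [if_neg hj, if_neg hj, if_neg hj]
      push Not at hj
      rcases j with _ | j
      · exact absurd rfl hj.2
      · rw [Equiv.swap_apply_of_ne_of_ne hj.1 hj.2]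
        rfl
  unfold Ti
  rw [h1, ti_tc, rl_tc]
  congr 1
  funext y
  simp [sw]

/-- Translation of the indices. -/
def tg [AddCommGroup I] (N : Type) (g : I) : (Option I × N) ≃ (Option I × N) :=
  Equiv.prodCongr (Equiv.optionCongr (Equiv.addRight g)) (Equiv.refl N)

lemma tg_par [AddCommGroup I] (par : N → Bool) (g : I) (x : Option I × N) :
    par' par (tg N g x) = par' par x := by
  obtain ⟨_ | i, n⟩ := x
  · rfl
  · rfl

lemma rl_tg [AddCommGroup I] (i g : I) (c : Ker F N N) :
    rl (tg N g) (tg N g) (Ti i c) = Ti (i - g) c := by
  funext L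
  show Ti i c (L.map (Prod.map (tg N g) (tg N g))) = _
  rw [Ti_eq, Ti_eq]
  have hsw : ∀ j : Option I, Equiv.swap (some i) none ((Equiv.optionCongr (Equiv.addRight g)) j)
      = (Equiv.optionCongr (Equiv.addRight g)) (Equiv.swap (some (i - g)) none j) := by
    intro j
    have := Equiv.swap_apply_apply (Equiv.optionCongr (Equiv.addRight g)) (some (i - g)) none
    have h2 : (Equiv.optionCongr (Equiv.addRight g)) (some (i - g)) = some i := by simp
    have h3 : (Equiv.optionCongr (Equiv.addRight g)) (none : Option I) = none := rfl
    rw [h2, h3] at this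
    rw [this, Equiv.Perm.mul_apply, Equiv.Perm.mul_apply]
    congr 2
    exact (Equiv.optionCongr (Equiv.addRight g)).symm_apply_apply j
  have e1 : (∀ e ∈ L.map (Prod.map (tg N g) (tg N g)),
      e.1.1 = Equiv.swap (some i) none e.2.1) ↔
      (∀ e ∈ L, e.1.1 = Equiv.swap (some (i - g)) none e.2.1) := by
    constructor
    · intro h e he
      have h1 := h _ (List.mem_map_of_mem he)
      have h2 : (Equiv.optionCongr (Equiv.addRight g)) e.1.1
          = Equiv.swap (some i) none ((Equiv.optionCongr (Equiv.addRight g)) e.2.1) := h1
      rw [hsw] at h2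
      exact (Equiv.injective _) h2
    · intro h e he
      obtain ⟨e', he', rfl⟩ := List.mem_map.mp he
      show (Equiv.optionCongr (Equiv.addRight g)) e'.1.1
          = Equiv.swap (some i) none ((Equiv.optionCongr (Equiv.addRight g)) e'.2.1)
      rw [hsw, ← h e' he']
  simp only [e1]
  have e2 : ∏ j, Si i c j (part j (L.map (Prod.map (tg N g) (tg N g))))
      = ∏ j, Si (i - g) c j (part j L) := by
    rw [← Equiv.prod_comp (Equiv.optionCongr (Equiv.addRight g))]
    refine Finset.prod_congr rfl (fun j _ => ?_)
    have h1 : Si i c ((Equiv.optionCongr (Equiv.addRight g)) j) = Si (i - g) c j := by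
      unfold Si
      have : ((Equiv.optionCongr (Equiv.addRight g)) j = some i
          ∨ (Equiv.optionCongr (Equiv.addRight g)) j = none) ↔ (j = some (i - g) ∨ j = none) := by
        rcases j with _ | j
        · simp
        · simp [eq_sub_iff_add_eq]
      simp only [this]
    have h2 : part ((Equiv.optionCongr (Equiv.addRight g)) j)
        (L.map (Prod.map (tg N g) (tg N g))) = part j L := by
      unfold part
      rw [List.filterMap_map]
      congr 1
      funext e
      have hiff : ((Prod.map (tg N g) (tg N g) e).1.1
          = (Equiv.optionCongr (Equiv.addRight g)) j) ↔ e.1.1 = j := by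
        show ((Equiv.optionCongr (Equiv.addRight g)) e.1.1
          = (Equiv.optionCongr (Equiv.addRight g)) j) ↔ _
        exact EmbeddingLike.apply_eq_iff_eq _
      by_cases he : e.1.1 = j
      · rw [Function.comp_apply, if_pos (hiff.mpr he), if_pos he]
        rfl
      · rw [Function.comp_apply, if_neg (fun h => he (hiff.mp h)), if_neg he]
    rw [h1, h2]
  rw [e2]

end step

/-- Data at level `k`. -/
def Level (F : Type) [CommRing F] (p k : ℕ) : Prop :=
  ∃ (N : Type) (_ : Fintype N) (par : N → Bool) (u w P : Ker F N N),
    Real P ∧ P [] = 1 ∧ u [] = 1 ∧ w [] = 1 ∧ Agr k P (tc par (fun x => !par x) u w) ∧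
    Fintype.card {n // par n = false} = Fintype.card {n // par n = true} + p ^ k ∧
    Fintype.card N = (p + 2) ^ k

lemma level_zero (p : ℕ) : Level F p 0 := by
  refine ⟨Unit, inferInstance, fun _ => false, Kp (Equiv.refl _), Kp (Equiv.refl _),
    Kp (Equiv.refl _), Real.Kp _, rfl, rfl, rfl, ?_, ?_, ?_⟩
  · intro L hL
    have : L = [] := List.length_eq_zero_iff.mp (Nat.le_zero.mp hL)
    subst this
    show (1 : F) = 1 * 1
    rw [mul_one]
  · simp
  · simp

lemma level_succ (p k : ℕ) [CharP F p] [NeZero (p + 1)] (h : Level F p k) :
    Level F p (k + 1) := by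
  obtain ⟨N, hN, par, u, w, P, hP, hP1, hu, hw, hag, hcard, hcN⟩ := h
  have hI : (Fintype.card (ZMod (p + 1)) : F) = 1 := by
    rw [ZMod.card]
    simp
  set μ : Ker F N N := tc par (fun x => !par x) u w with hμ
  have hμ1 : μ [] = 1 := by
    show u [] * w [] = 1
    rw [hu, hw, one_mul]
  let S : ZMod (p + 1) → ((Option (ZMod (p + 1)) × N) ≃ (Option (ZMod (p + 1)) × N)) := fun g =>
    shf (par' par) (tg N g) (tg_par par g)
  let S' : ZMod (p + 1) → ((Option (ZMod (p + 1)) × N) ≃ (Option (ZMod (p + 1)) × N)) := fun g =>
    shf (fun x => !par' par x) (tg N g) (fun x => by rw [tg_par par g])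
  refine ⟨Option (ZMod (p + 1)) × N, inferInstance, par' par,
    fun L => ∑ i : ZMod (p + 1), Ti i u L, fun L => ∑ i : ZMod (p + 1), Ti i w L,
    fun L => ∑ g : ZMod (p + 1), rl (S g) (S' g) (fun L => ∑ i : ZMod (p + 1), Ti i P L) L,
    ?_, ?_, ?_, ?_, ?_, ?_, ?_⟩
  · have h1 : Real (fun L => ∑ i : ZMod (p + 1), Ti i P L) := by
      have := Real.sum (F := F) (fun _ => 1) (fun i : ZMod (p + 1) => Ti i P)
        (fun i => Ti_real i hP)
      simpa only [one_mul] using this
    have := Real.sum (F := F) (fun _ => 1) (fun g : ZMod (p + 1) =>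
      rl (S g) (S' g) (fun L => ∑ i : ZMod (p + 1), Ti i P L)) (fun g => h1.rl _ _)
    simpa only [one_mul] using this
  · simp only [rl_nil, Ti_nil _ hP1, Finset.sum_const, Finset.card_univ, nsmul_eq_mul, hI, mul_one]
  · simp only [Ti_nil _ hu, Finset.sum_const, Finset.card_univ, nsmul_eq_mul, hI, mul_one]
  · simp only [Ti_nil _ hw, Finset.sum_const, Finset.card_univ, nsmul_eq_mul, hI, mul_one]
  · have h1 := sum_Ti_agr (I := ZMod (p + 1)) k hag hP1 hμ1 hI
    have h2 : ∀ L, ∑ g : ZMod (p + 1), rl (S g) (S' g)
        (fun L => ∑ i : ZMod (p + 1), Ti i μ L) L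
        = tc (par' par) (fun x => !par' par x) (fun L => ∑ i : ZMod (p + 1), Ti i u L)
          (fun L => ∑ i : ZMod (p + 1), Ti i w L) L := by
      intro L
      have h3 : ∀ g, rl (S g) (S' g) (fun L => ∑ i : ZMod (p + 1), Ti i μ L) L
          = ∑ i : ZMod (p + 1), tcL (par' par) (fun x => !par' par x) L (Ti i u)
            (Ti (i - g) w) := by
        intro g
        show ∑ i : ZMod (p + 1), Ti i μ (L.map (Prod.map (S g) (S' g))) = _
        refine Finset.sum_congr rfl (fun i _ => ?_)
        rw [hμ, Ti_tc]
        have h4 := shf_tc (par' par) (fun x => !par' par x) (tg N g) (tg_par par g)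
          (tg N g) (fun x => by rw [tg_par par g]) (Ti i u) (Ti i w)
        rw [rl_tg] at h4
        exact congrFun h4 L
      rw [Finset.sum_congr rfl (fun g _ => h3 g), Finset.sum_comm]
      show _ = tcL _ _ _ _ _
      rw [tcL_sum_left]
      refine Finset.sum_congr rfl (fun i _ => ?_)
      rw [tcL_sum_right]
      exact Equiv.sum_comp (Equiv.subLeft i)
        (fun j => tcL (par' par) (fun x => !par' par x) L (Ti i u) (Ti j w))
    intro L hL
    show _ = tc _ _ _ _ L
    rw [← h2 L]
    refine Finset.sum_congr rfl (fun g _ => ?_)
    exact h1 _ (by simpa using hL)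
  · have e : ∀ b : Bool, Fintype.card {x : Option (ZMod (p + 1)) × N // par' par x = b}
        = Fintype.card {n // par n = !b} + (p + 1) * Fintype.card {n // par n = b} := by
      intro b
      rw [Fintype.card_subtype, Fintype.card_subtype, Fintype.card_subtype]
      have h1 : (Finset.univ.filter (fun x : Option (ZMod (p + 1)) × N => par' par x = b)).card
          = ∑ j : Option (ZMod (p + 1)), (Finset.univ.filter (fun n => par' par (j, n) = b)).card := by
        rw [Finset.card_filter, Fintype.sum_prod_type]
        exact Finset.sum_congr rfl (fun j _ => (Finset.card_filter _ _).symm)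
      rw [h1, Fintype.sum_option]
      have h2 : (Finset.univ.filter (fun n => par' (I := ZMod (p + 1)) par (none, n) = b))
          = (Finset.univ.filter (fun n => par n = !b)) := by
        ext n
        simp only [par', Finset.mem_filter, Finset.mem_univ, true_and]
        cases hpn : par n <;> cases b <;> simp [hpn]
      rw [h2]
      have h3 : ∀ j : ZMod (p + 1), (Finset.univ.filter (fun n => par' par (some j, n) = b))
          = (Finset.univ.filter (fun n => par n = b)) := fun j => rfl
      simp only [h3, Finset.sum_const, Finset.card_univ, ZMod.card, smul_eq_mul]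
    rw [e, e]
    simp only [Bool.not_false, Bool.not_true]
    rw [hcard, pow_succ]
    ring
  · rw [Fintype.card_prod, Fintype.card_option, ZMod.card, hcN]
    ring

lemma level_all (p : ℕ) [CharP F p] (k : ℕ) : Level F p k := by
  induction k with
  | zero => exact level_zero p
  | succ k ih => exact level_succ p k ih

end

end Pool.Agent.J6H0.Bij
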