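import Mathlib
import Pool.Agent.J6H0.Bij.Step

set_option autoImplicit false
set_option linter.unusedSectionVars false

/-!
From kernels to spaces of polynomials.
-/

namespace Pool.Agent.J6H0.Bij

open scoped Classical

noncomputable section

section split

variable {F : Type} [CommRing F]

lemma tens_map_inl {A A' B B' : Type} (L : List (A × B)) (a : Ker F A B) (b : Ker F A' B') :
    tens (L.map (Prod.map Sum.inl Sum.inl)) a b = a L * b [] := by
  induction L generalizing a with
  | nil => rfl
  | cons e L ih => exact ih _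

lemma tens_map_inr {A A' B B' : Type} (L : List (A' × B')) (a : Ker F A B) (b : Ker F A' B') :
    tens (L.map (Prod.map Sum.inr Sum.inr)) a b = a [] * b L := by
  induction L generalizing b with
  | nil => rfl
  | cons e L ih => exact ih _

end split

section split2

variable {F : Type} [Field F]

lemma level_split (p k : ℕ) (h : Level F p k) :
    ∃ (X Y : Type) (_ : Fintype X) (_ : Fintype Y) (P : Ker F (X ⊕ Y) (Y ⊕ X)),
      Real P ∧ P [] = 1 ∧ Agr k P (tn (uu P) (ww P)) ∧
      Fintype.card X = Fintype.card Y + p ^ k ∧ Fintype.card X + Fintype.card Y = (p + 2) ^ k := by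
  obtain ⟨N, hN, par, u, w, P, hP, hP1, hu, hw, hag, hcard, hcN⟩ := h
  let X := {n : N // par n = false}
  let Y := {n : N // par n = true}
  let h : (X ⊕ Y) ≃ N :=
    (Equiv.sumCongr (Equiv.refl X) (Equiv.subtypeEquivRight (fun n => by simp))).trans
      (Equiv.sumCompl (fun n => par n = false))
  have hl : ∀ x : X, h (Sum.inl x) = x.1 := fun x => rfl
  have hr : ∀ y : Y, h (Sum.inr y) = y.1 := fun y => rfl
  let g : (Y ⊕ X) ≃ N := (Equiv.sumComm Y X).trans h
  have gl : ∀ x : Y, g (Sum.inl x) = x.1 := fun x => rfl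
  have gr : ∀ y : X, g (Sum.inr y) = y.1 := fun y => rfl
  let us : Ker F X Y := rl Subtype.val Subtype.val u
  let ws : Ker F Y X := rl Subtype.val Subtype.val w
  have key : ∀ (L : List ((X ⊕ Y) × (Y ⊕ X))) (u w : Ker F N N),
      tcL par (fun x => !par x) (L.map (Prod.map h g)) u w
        = tens L (rl (fun x : X => x.1) (fun y : Y => y.1) u)
          (rl (fun y : Y => y.1) (fun x : X => x.1) w) := by
    intro L
    induction L with
    | nil => intro u w; rfl
    | cons e L ih =>
      intro u w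
      rcases e with ⟨x | x, y | y⟩
      · rw [List.map_cons, tcL_cons]
        simp only [Prod.map_apply, hl, gl, x.2, y.2, Bool.not_true, if_true, tens_ll]
        rw [if_neg (by simp), ih]
        rfl
      · rw [List.map_cons, tcL_cons]
        simp only [Prod.map_apply, hl, gr, x.2, y.2, Bool.not_false, tens_lr]
        rfl
      · rw [List.map_cons, tcL_cons]
        simp only [Prod.map_apply, hr, gl, x.2, y.2, Bool.not_true, tens_rl]
        rfl
      · rw [List.map_cons, tcL_cons]
        simp only [Prod.map_apply, hr, gr, x.2, y.2, Bool.not_false, if_true, tens_rr]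
        rw [ih]
        rfl
  have hA : Agr k (rl h g P) (tn us ws) := by
    intro L hL
    have h1 := hag (L.map (Prod.map h g)) (by simpa using hL)
    show P (L.map (Prod.map h g)) = _
    rw [h1]
    exact key L u w
  have hu' : Agr k (uu (rl h g P)) us := by
    intro L hL
    have h1 := hA (L.map (Prod.map Sum.inl Sum.inl)) (by simpa using hL)
    have h2 : tn us ws (L.map (Prod.map Sum.inl Sum.inl)) = us L * ws [] := tens_map_inl L us ws
    rw [h2] at h1
    have h3 : ws [] = 1 := hw
    rw [h3, mul_one] at h1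
    exact h1
  have hw' : Agr k (ww (rl h g P)) ws := by
    intro L hL
    have h1 := hA (L.map (Prod.map Sum.inr Sum.inr)) (by simpa using hL)
    have h2 : tn us ws (L.map (Prod.map Sum.inr Sum.inr)) = us [] * ws L := tens_map_inr L us ws
    rw [h2] at h1
    have h3 : us [] = 1 := hu
    rw [h3, one_mul] at h1
    exact h1
  refine ⟨X, Y, inferInstance, inferInstance, rl h g P, hP.rl h g, hP1, ?_, hcard, ?_⟩
  · exact hA.trans (hu'.tn hw').symm
  · rw [← hcN, ← Fintype.card_sum]
    exact Fintype.card_congr h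

theorem good_uniform (p k : ℕ) [CharP F p] (n : ℕ)
    (hn : (p + 2) ^ (k + 1) + ((p + 2) ^ (k + 1) + 2 * (k + 1)) ≤ n) (a : ℕ) :
    Good F k (Fin (n + (a + 1) * p ^ (k + 1))) (Fin n) := by
  obtain ⟨X, Y, hX, hY, P, hP, hP1, hag, hc, hc2⟩ := level_split p (k + 1)
    (level_all (F := F) p (k + 1))
  refine good_main P k hP hP1 hag _ hc n ?_ a
  rw [Fintype.card_sum]
  omega

end split2

section poly

variable {F : Type} [Field F] {A B : Type} [Fintype A] [Fintype B]

/-- The linear functional of a kernel. -/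
def Lam (r : Ker F A B) : MvPolynomial (A × B) F →ₗ[F] F :=
  (MvPolynomial.basisMonomials (A × B) F).constr F (fun m => r (Finsupp.toMultiset m).toList)

lemma Lam_monomial (r : Ker F A B) (m : (A × B) →₀ ℕ) (a : F) :
    Lam r (MvPolynomial.monomial m a) = a * r (Finsupp.toMultiset m).toList := by
  have h : MvPolynomial.monomial m a = a • (MvPolynomial.basisMonomials (A × B) F m) := by
    rw [MvPolynomial.coe_basisMonomials]
    simp [MvPolynomial.smul_monomial]
  rw [h, map_smul, Lam, Module.Basis.constr_basis, smul_eq_mul]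

lemma Lam_one (r : Ker F A B) : Lam r 1 = r [] := by
  have : (1 : MvPolynomial (A × B) F) = MvPolynomial.monomial 0 1 := rfl
  rw [this, Lam_monomial]
  simp

lemma Lam_X_mul {r : Ker F A B} (hr : Sym r) (e : A × B) (f : MvPolynomial (A × B) F) :
    Lam r (MvPolynomial.X e * f) = Lam (Dv e r) f := by
  induction f using MvPolynomial.induction_on' with
  | monomial m a =>
    rw [MvPolynomial.X, MvPolynomial.monomial_mul, one_mul, Lam_monomial, Lam_monomial]
    congr 1
    show r _ = r (e :: _)
    refine hr _ _ ?_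
    rw [← Multiset.coe_eq_coe, Multiset.coe_toList, ← Multiset.cons_coe, Multiset.coe_toList,
      map_add, Finsupp.toMultiset_single, one_smul, Multiset.singleton_add]
  | add f g hf hg => rw [mul_add, map_add, map_add, hf, hg]

lemma Lam_X (r : Ker F A B) (hr : Sym r) (e : A × B) : Lam r (MvPolynomial.X e) = r [e] := by
  rw [← mul_one (MvPolynomial.X e), Lam_X_mul hr, Lam_one]
  rfl

lemma Lam_XX (r : Ker F A B) (hr : Sym r) (e f : A × B) :
    Lam r (MvPolynomial.X e * MvPolynomial.X f) = r [e, f] := by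
  rw [Lam_X_mul hr, Lam_X _ (hr.Dv e)]
  rfl

lemma Lam_congr {k : ℕ} {r r' : Ker F A B} (h : Agr k r r') (f : MvPolynomial (A × B) F)
    (hf : f.totalDegree ≤ k) : Lam r f = Lam r' f := by
  rw [MvPolynomial.as_sum f, map_sum, map_sum]
  refine Finset.sum_congr rfl (fun m hm => ?_)
  rw [Lam_monomial, Lam_monomial, h]
  rw [Multiset.length_toList, Finsupp.card_toMultiset]
  exact (MvPolynomial.le_totalDegree hm).trans hf

theorem final (k : ℕ) (hk : 1 ≤ k) (h : Good F k A B) :
    ∃ V : Submodule F (MvPolynomial (A × B) F),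
      ((∀ v : A × B, MvPolynomial.X v ^ 2 - MvPolynomial.X v ∈ V) ∧
       (∀ i : A, 1 - ∑ j : B, MvPolynomial.X (i, j) ∈ V) ∧
       (∀ i : A, ∀ j l : B, j ≠ l → MvPolynomial.X (i, j) * MvPolynomial.X (i, l) ∈ V) ∧
       (∀ i i' : A, ∀ j : B, i ≠ i' → MvPolynomial.X (i, j) * MvPolynomial.X (i', j) ∈ V) ∧
       (∀ j : B, 1 - ∑ i : A, MvPolynomial.X (i, j) ∈ V)) ∧
      (∀ f ∈ V, ∀ v : A × B, (MvPolynomial.X v * f).totalDegree ≤ k + 1 →
        MvPolynomial.X v * f ∈ V) ∧
      (1 : MvPolynomial (A × B) F) ∉ V := by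
  obtain ⟨R, ⟨r0, hr0, hr1⟩, hD, hl⟩ := h
  let V : Submodule F (MvPolynomial (A × B) F) :=
    { carrier := {f | f.totalDegree ≤ k + 1 ∧ ∀ r ∈ R, Lam r f = 0}
      add_mem' := by
        rintro f g ⟨hf, hf'⟩ ⟨hg, hg'⟩
        refine ⟨(MvPolynomial.totalDegree_add f g).trans (max_le hf hg), fun r hr => ?_⟩
        rw [map_add, hf' r hr, hg' r hr, add_zero]
      zero_mem' := ⟨by simp, fun r _ => map_zero _⟩
      smul_mem' := by
        rintro t f ⟨hf, hf'⟩
        refine ⟨(MvPolynomial.totalDegree_smul_le t f).trans hf, fun r hr => ?_⟩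
        rw [map_smul, hf' r hr, smul_zero] }
  have memV : ∀ f, f ∈ V ↔ f.totalDegree ≤ k + 1 ∧ ∀ r ∈ R, Lam r f = 0 := fun f => Iff.rfl
  have hX : ∀ v : A × B, (MvPolynomial.X v : MvPolynomial (A × B) F).totalDegree = 1 :=
    fun v => MvPolynomial.totalDegree_X v
  have hXX : ∀ v w : A × B,
      (MvPolynomial.X v * MvPolynomial.X w : MvPolynomial (A × B) F).totalDegree ≤ k + 1 := by
    intro v w
    refine (MvPolynomial.totalDegree_mul _ _).trans ?_
    rw [hX, hX]
    omega
  have hsum : ∀ (ι : Type) (s : Finset ι) (f : ι → A × B),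
      (1 - ∑ i ∈ s, MvPolynomial.X (f i) : MvPolynomial (A × B) F).totalDegree ≤ k + 1 := by
    intro ι s f
    refine (MvPolynomial.totalDegree_sub _ _).trans (max_le ?_ ?_)
    · rw [MvPolynomial.totalDegree_one]; omega
    · refine MvPolynomial.totalDegree_finsetSum_le (fun i _ => ?_)
      rw [hX]; omega
  refine ⟨V, ⟨?_, ?_, ?_, ?_, ?_⟩, ?_, ?_⟩
  · intro v
    rw [memV]
    refine ⟨(MvPolynomial.totalDegree_sub _ _).trans (max_le ?_ ?_), fun r hr => ?_⟩
    · rw [pow_two]; exact hXX v v
    · rw [hX]; omega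
    · rw [map_sub, pow_two, Lam_XX r (hl r hr).sym, Lam_X r (hl r hr).sym, (hl r hr).idem,
        sub_self]
  · intro i
    rw [memV]
    refine ⟨hsum B Finset.univ (fun j => (i, j)), fun r hr => ?_⟩
    rw [map_sub, map_sum, Lam_one]
    simp only [Lam_X r (hl r hr).sym]
    rw [(hl r hr).row, sub_self]
  · intro i j l hjl
    rw [memV]
    refine ⟨hXX _ _, fun r hr => ?_⟩
    rw [Lam_XX r (hl r hr).sym, (hl r hr).fn i j l hjl]
  · intro i i' j hii
    rw [memV]
    refine ⟨hXX _ _, fun r hr => ?_⟩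
    rw [Lam_XX r (hl r hr).sym, (hl r hr).inj i i' j hii]
  · intro j
    rw [memV]
    refine ⟨hsum A Finset.univ (fun i => (i, j)), fun r hr => ?_⟩
    rw [map_sub, map_sum, Lam_one]
    simp only [Lam_X r (hl r hr).sym]
    rw [(hl r hr).col, sub_self]
  · intro f hf v hv
    rw [memV] at hf ⊢
    refine ⟨hv, fun r hr => ?_⟩
    obtain ⟨r', hr', ha⟩ := hD r hr v
    rw [Lam_X_mul (hl r hr).sym]
    by_cases hf0 : f = 0
    · rw [hf0, map_zero]
    · have hdeg : f.totalDegree ≤ k := by
        rw [MvPolynomial.totalDegree_mul_of_isDomain (MvPolynomial.X_ne_zero v) hf0, hX] at hv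
        omega
      rw [Lam_congr ha f hdeg, hf.2 r' hr']
  · intro h1
    rw [memV] at h1
    have := h1.2 r0 hr0
    rw [Lam_one] at this
    exact hr1 this

end poly

end

end Pool.Agent.J6H0.Bij
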